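import Pool.Agent.Work.MP_ad0563_ag.Interface

/-!
# MP_ad0563_ag, block N1: normality of the rings `S_w[η]`
-/

open MvPolynomial

namespace Pool.Agent.MPad0563

namespace NormN

section Cubic

set_option linter.unusedSectionVars false

variable {P K0 L : Type} [CommRing P] [IsDomain P] [UniqueFactorizationMonoid P]
  [Field K0] [Algebra P K0] [IsFractionRing P K0] [Field L] [Algebra K0 L] [Algebra P L]
  [IsScalarTower P K0 L]

lemma mem_range_of_isIntegral [IsIntegrallyClosed P] {z : K0}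
    (hz : IsIntegral P (algebraMap K0 L z)) : ∃ p : P, algebraMap P K0 p = z := by
  have h1 : IsIntegral P z := by
    have := (isIntegral_algHom_iff (IsScalarTower.toAlgHom P K0 L)
      (algebraMap K0 L).injective (x := z)).1 hz
    exact this
  exact IsIntegrallyClosed.isIntegral_iff.1 h1

lemma not_cube [IsIntegrallyClosed P] {G : P} (hG : Squarefree G) (hu : ¬ IsUnit G) (b : K0) :
    b ^ 3 ≠ algebraMap P K0 G := by
  intro hb
  have h1 : IsIntegral P b := by
    refine ⟨Polynomial.X ^ 3 - Polynomial.C G, Polynomial.monic_X_pow_sub_C G (by norm_num), ?_⟩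
    simp [hb]
  obtain ⟨c, hc⟩ := IsIntegrallyClosed.isIntegral_iff.1 h1
  have h2 : c ^ 3 = G := by
    apply IsFractionRing.injective P K0
    rw [map_pow, hc, hb]
  have h3 : IsUnit c := hG c ⟨c, by rw [← h2]; ring⟩
  exact hu (h2 ▸ h3.pow 3)

lemma minpoly_eq [IsIntegrallyClosed P] {G : P} (hG : Squarefree G) (hu : ¬ IsUnit G) {θ : L}
    (hθ : θ ^ 3 = algebraMap P L G) :
    minpoly K0 θ = Polynomial.X ^ 3 - Polynomial.C (algebraMap P K0 G) := by
  symm
  apply minpoly.eq_of_irreducible_of_monic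
  · exact X_pow_sub_C_irreducible_of_prime Nat.prime_three (not_cube hG hu)
  · simp [hθ, ← IsScalarTower.algebraMap_apply]
  · exact Polynomial.monic_X_pow_sub_C _ (by norm_num)

lemma lin_indep [IsIntegrallyClosed P] {G : P} (hG : Squarefree G) (hu : ¬ IsUnit G) {θ : L}
    (hθ : θ ^ 3 = algebraMap P L G) {a b c : K0}
    (h : algebraMap K0 L a + algebraMap K0 L b * θ + algebraMap K0 L c * θ ^ 2 = 0) :
    a = 0 ∧ b = 0 ∧ c = 0 := by
  set p : Polynomial K0 := Polynomial.C c * Polynomial.X ^ 2 + Polynomial.C b * Polynomial.X +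
    Polynomial.C a with hp
  have h1 : Polynomial.aeval θ p = 0 := by
    rw [hp]
    simp only [map_add, map_mul, map_pow, Polynomial.aeval_C, Polynomial.aeval_X]
    rw [← h]; ring
  have h2 : p = 0 := by
    by_contra hne
    have h3 := minpoly.degree_le_of_ne_zero K0 θ hne h1
    rw [minpoly_eq hG hu hθ, Polynomial.degree_X_pow_sub_C (by norm_num)] at h3
    have h4 : p.degree ≤ 2 := Polynomial.degree_quadratic_le
    have h5 := h3.trans h4
    norm_num at h5
  have hc := congrArg (fun q => Polynomial.coeff q 2) h2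
  have hb := congrArg (fun q => Polynomial.coeff q 1) h2
  have ha := congrArg (fun q => Polynomial.coeff q 0) h2
  simp [hp] at ha hb hc
  refine ⟨ha, ?_, hc⟩
  simpa [Polynomial.coeff_C] using hb

/-- a fraction `β` with `β ^ 3 * G` integral and `G` squarefree is integral -/
lemma den_one {G : P} (hG : Squarefree G) {β : K0}
    (h : ∃ r : P, β ^ 3 * algebraMap P K0 G = algebraMap P K0 r) :
    ∃ p : P, algebraMap P K0 p = β := by
  obtain ⟨r, hr⟩ := h
  obtain ⟨p, q, hrel, hβ⟩ := IsFractionRing.exists_reduced_fraction (A := P) β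
  rw [IsFractionRing.mk'_eq_div] at hβ
  have hq0 : algebraMap P K0 q ≠ 0 := IsFractionRing.to_map_ne_zero_of_mem_nonZeroDivisors q.2
  have h1 : p ^ 3 * G = (q : P) ^ 3 * r := by
    apply IsFractionRing.injective P K0
    rw [map_mul, map_mul, map_pow, map_pow, ← hr, ← hβ]
    field_simp
  have h2 : (q : P) ^ 3 ∣ G := by
    have h3 : IsRelPrime ((q : P) ^ 3) (p ^ 3) := (hrel.symm.pow)
    exact h3.dvd_of_dvd_mul_left ⟨r, h1⟩
  have h3 : IsUnit (q : P) := hG _ (dvd_trans ⟨q, by ring⟩ h2)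
  obtain ⟨v, hv⟩ := h3
  refine ⟨p * (v⁻¹ : Pˣ), ?_⟩
  rw [← hβ, ← hv, map_mul, eq_div_iff (by rw [hv]; exact hq0), mul_assoc, ← map_mul]
  simp

/-- a fraction `γ` with `γ ^ 3 * G ^ 2` integral and `G` squarefree is integral -/
lemma den_two {G : P} (hG : Squarefree G) {γ : K0}
    (h : ∃ r : P, γ ^ 3 * algebraMap P K0 G ^ 2 = algebraMap P K0 r) :
    ∃ p : P, algebraMap P K0 p = γ := by
  obtain ⟨r, hr⟩ := h
  obtain ⟨p, q, hrel, hβ⟩ := IsFractionRing.exists_reduced_fraction (A := P) γ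
  rw [IsFractionRing.mk'_eq_div] at hβ
  have hq0 : algebraMap P K0 q ≠ 0 := IsFractionRing.to_map_ne_zero_of_mem_nonZeroDivisors q.2
  have h1 : p ^ 3 * G ^ 2 = (q : P) ^ 3 * r := by
    apply IsFractionRing.injective P K0
    rw [map_mul, map_mul, map_pow, map_pow, map_pow, ← hr, ← hβ]
    field_simp
  have h2 : (q : P) ^ 3 ∣ G ^ 2 := by
    have h3 : IsRelPrime ((q : P) ^ 3) (p ^ 3) := (hrel.symm.pow)
    exact h3.dvd_of_dvd_mul_left ⟨r, h1⟩
  have h3 : IsUnit (q : P) := by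
    by_contra hnu
    have hqne : (q : P) ≠ 0 := nonZeroDivisors.ne_zero q.2
    obtain ⟨π, hπ, hπq⟩ := WfDvdMonoid.exists_irreducible_factor hnu hqne
    have hπp : Prime π := hπ.prime
    have h4 : π ^ 3 ∣ G ^ 2 := (pow_dvd_pow_of_dvd hπq 3).trans h2
    have h5 : π ∣ G := hπp.dvd_of_dvd_pow ((dvd_pow_self π (by norm_num)).trans h4)
    obtain ⟨G', rfl⟩ := h5
    have h6 : π ^ 2 * π ∣ π ^ 2 * G' ^ 2 := by
      have : π ^ 3 = π ^ 2 * π := by ring
      rw [← this, ← mul_pow]; exact h4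
    have h7 : π ∣ G' ^ 2 := (mul_dvd_mul_iff_left (pow_ne_zero 2 hπp.ne_zero)).1 h6
    have h8 : π ∣ G' := hπp.dvd_of_dvd_pow h7
    have h9 : IsUnit π := hG π (mul_dvd_mul_left π h8)
    exact hπp.not_isUnit h9
  obtain ⟨v, hv⟩ := h3
  refine ⟨p * (v⁻¹ : Pˣ), ?_⟩
  rw [← hβ, ← hv, map_mul, eq_div_iff (by rw [hv]; exact hq0), mul_assoc, ← map_mul]
  simp

/-- the coefficients of an integral element are integral -/
lemma coeffs_integral [IsIntegrallyClosed P] [Algebra ℂ P] [Algebra ℂ L] [IsScalarTower ℂ P L]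
    {G : P} (hG : Squarefree G) (hu : ¬ IsUnit G) {η : L} (hη : η ^ 3 = algebraMap P L G)
    {α β γ : K0}
    (h : IsIntegral P (algebraMap K0 L α + algebraMap K0 L β * η + algebraMap K0 L γ * η ^ 2)) :
    ∃ a b c : P, algebraMap P K0 a = α ∧ algebraMap P K0 b = β ∧ algebraMap P K0 c = γ := by
  -- conjugates
  have conj : ∀ θ : L, θ ^ 3 = algebraMap P L G →
      IsIntegral P (algebraMap K0 L α + algebraMap K0 L β * θ + algebraMap K0 L γ * θ ^ 2) := by
    intro θ hθ
    obtain ⟨p, hpm, hp⟩ := h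
    refine ⟨p, hpm, ?_⟩
    set q : Polynomial K0 := (p.map (algebraMap P K0)).comp
      (Polynomial.C α + Polynomial.C β * Polynomial.X + Polynomial.C γ * Polynomial.X ^ 2) with hq
    have hev : ∀ x : L, Polynomial.aeval x q =
        Polynomial.eval₂ (algebraMap P L) (algebraMap K0 L α + algebraMap K0 L β * x +
          algebraMap K0 L γ * x ^ 2) p := by
      intro x
      rw [hq, Polynomial.aeval_comp, Polynomial.aeval_map_algebraMap, Polynomial.aeval_def]
      simp
    have h1 : Polynomial.aeval η q = 0 := by rw [hev]; exact hp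
    have h2 : minpoly K0 η ∣ q := minpoly.dvd K0 η h1
    rw [minpoly_eq hG hu hη, ← minpoly_eq hG hu hθ] at h2
    obtain ⟨r, hr⟩ := h2
    rw [← hev, hr, map_mul, minpoly.aeval, zero_mul]
  obtain ⟨ω, hω⟩ : ∃ ω : ℂ, IsPrimitiveRoot ω 3 := ⟨_, Complex.isPrimitiveRoot_exp 3 (by norm_num)⟩
  have hω3 : ω ^ 3 = 1 := hω.pow_eq_one
  have hω1 : 1 + ω + ω ^ 2 = 0 := by
    have h1 : (ω - 1) * (1 + ω + ω ^ 2) = 0 := by
      have : (ω - 1) * (1 + ω + ω ^ 2) = ω ^ 3 - 1 := by ring
      rw [this, hω3, sub_self]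
    rcases mul_eq_zero.1 h1 with h2 | h2
    · exact absurd (sub_eq_zero.1 h2) (hω.ne_one (by norm_num))
    · exact h2
  set w : L := algebraMap ℂ L ω with hw
  have hw3 : w ^ 3 = 1 := by rw [hw, ← map_pow, hω3, map_one]
  have hw1 : 1 + w + w ^ 2 = 0 := by
    rw [hw, ← map_pow, ← map_one (algebraMap ℂ L), ← map_add, ← map_add, hω1, map_zero]
  have hwint : IsIntegral P w := by
    rw [hw, IsScalarTower.algebraMap_apply ℂ P L]; exact isIntegral_algebraMap
  have hthird : ∀ z : L, IsIntegral P (3 * z) → IsIntegral P z := by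
    intro z hz
    have h1 : z = algebraMap P L (algebraMap ℂ P (1 / 3)) * (3 * z) := by
      rw [← IsScalarTower.algebraMap_apply ℂ P L]
      have : algebraMap ℂ L (1 / 3) * 3 = 1 := by
        have h3 : (3 : L) = algebraMap ℂ L 3 := (map_ofNat (algebraMap ℂ L) 3).symm
        rw [h3, ← map_mul]; norm_num
      rw [← mul_assoc, this, one_mul]
    rw [h1]
    exact isIntegral_algebraMap.mul hz
  have h0 := conj η hη
  have h1 := conj (w * η) (by rw [mul_pow, hw3, one_mul, hη])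
  have h2 := conj (w ^ 2 * η) (by
    rw [mul_pow, ← pow_mul, hη, show w ^ (2 * 3) = (w ^ 3) ^ 2 by ring, hw3]; ring)
  have hw4 : w ^ 4 = w := by rw [show w ^ 4 = w ^ 3 * w by ring, hw3, one_mul]
  have hα : IsIntegral P (algebraMap K0 L α) := by
    apply hthird
    have h3 := (h0.add h1).add h2
    refine Eq.subst (motive := fun z => IsIntegral P z) ?_ h3
    symm
    linear_combination (-(algebraMap K0 L β * η)) * hw1 +
      (-(algebraMap K0 L γ * η ^ 2)) * hw1 + (-(algebraMap K0 L γ * η ^ 2)) * w * hw3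
  have hβ : IsIntegral P (algebraMap K0 L β * η) := by
    apply hthird
    have h3 := (h0.add ((hwint.pow 2).mul h1)).add (hwint.mul h2)
    refine Eq.subst (motive := fun z => IsIntegral P z) ?_ h3
    symm
    linear_combination (-(algebraMap K0 L α)) * hw1 + (-2 * (algebraMap K0 L β * η)) * hw3 +
      (-(algebraMap K0 L γ * η ^ 2)) * hw1 + (-(algebraMap K0 L γ * η ^ 2)) * (w + w ^ 2) * hw3
  have hγ : IsIntegral P (algebraMap K0 L γ * η ^ 2) := by
    apply hthird
    have h3 := (h0.add (hwint.mul h1)).add ((hwint.pow 2).mul h2)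
    refine Eq.subst (motive := fun z => IsIntegral P z) ?_ h3
    symm
    linear_combination (-(algebraMap K0 L α)) * hw1 + (-(algebraMap K0 L β * η)) * hw1 +
      (-(algebraMap K0 L β * η)) * w * hw3 + (-(algebraMap K0 L γ * η ^ 2)) * (w ^ 3 + 2) * hw3
  obtain ⟨a, ha⟩ := mem_range_of_isIntegral hα
  have hηη : algebraMap P L G = algebraMap K0 L (algebraMap P K0 G) :=
    IsScalarTower.algebraMap_apply P K0 L G
  obtain ⟨b, hb⟩ : ∃ b : P, algebraMap P K0 b = β := by
    apply den_one hG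
    have h3 : IsIntegral P (algebraMap K0 L (β ^ 3 * algebraMap P K0 G)) := by
      rw [map_mul, map_pow, ← hηη, ← hη, ← mul_pow]
      exact hβ.pow 3
    obtain ⟨r, hr⟩ := mem_range_of_isIntegral h3
    exact ⟨r, hr.symm⟩
  obtain ⟨c, hc⟩ : ∃ c : P, algebraMap P K0 c = γ := by
    apply den_two hG
    have h3 : IsIntegral P (algebraMap K0 L (γ ^ 3 * algebraMap P K0 G ^ 2)) := by
      rw [map_mul, map_pow, map_pow, ← hηη, ← hη, ← pow_mul, show 3 * 2 = 2 * 3 by norm_num,
        pow_mul η, ← mul_pow]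
      exact hγ.pow 3
    obtain ⟨r, hr⟩ := mem_range_of_isIntegral h3
    exact ⟨r, hr.symm⟩
  exact ⟨a, b, c, ha, hb, hc⟩

end Cubic

section Grading

variable {n : ℕ}

/-- multiplication of the variables by roots of unity -/
noncomputable def tw (ω : ℂ) (w : Fin n → ℕ) : MvPolynomial (Fin n) ℂ →ₐ[ℂ] MvPolynomial (Fin n) ℂ :=
  aeval fun i => C (ω ^ w i) * X i

lemma tw_monomial (ω : ℂ) (w : Fin n → ℕ) (e : Fin n →₀ ℕ) (c : ℂ) :
    tw ω w (monomial e c) = monomial e (ω ^ (∑ i, w i * e i) * c) := by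
  unfold tw
  rw [aeval_monomial]
  simp only [MvPolynomial.algebraMap_eq]
  rw [Finsupp.prod_fintype _ _ (fun i => by simp)]
  simp_rw [mul_pow, Finset.prod_mul_distrib]
  rw [MvPolynomial.monomial_eq, Finsupp.prod_fintype _ _ (fun i => by simp)]
  have : ∏ i, (C (ω ^ w i) : MvPolynomial (Fin n) ℂ) ^ e i = C (ω ^ (∑ i, w i * e i)) := by
    simp_rw [← map_pow, ← pow_mul]
    rw [← map_prod, Finset.prod_pow_eq_pow_sum]
  rw [this, C_mul]
  ring

lemma coeff_tw (ω : ℂ) (w : Fin n → ℕ) (f : MvPolynomial (Fin n) ℂ) (e : Fin n →₀ ℕ) :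
    coeff e (tw ω w f) = ω ^ (∑ i, w i * e i) * coeff e f := by
  classical
  induction f using MvPolynomial.induction_on' with
  | monomial u a =>
    rw [tw_monomial, coeff_monomial, coeff_monomial]
    split_ifs with h
    · rw [h]
    · rw [mul_zero]
  | add p q hp hq => rw [map_add, coeff_add, coeff_add, hp, hq]; ring

lemma tw_eq_iff {ω : ℂ} (hω : IsPrimitiveRoot ω 3) (w : Fin n → ℕ) (f : MvPolynomial (Fin n) ℂ) :
    tw ω w f = f ↔ ∀ e ∈ f.support, 3 ∣ ∑ i, w i * e i := by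
  constructor
  · intro h e he
    have h1 := coeff_tw ω w f e
    rw [h] at h1
    have h2 : coeff e f ≠ 0 := mem_support_iff.1 he
    have h3 : ω ^ (∑ i, w i * e i) = 1 := by
      have h4 : (ω ^ (∑ i, w i * e i) - 1) * coeff e f = 0 := by rw [sub_mul, ← h1]; ring
      rcases mul_eq_zero.1 h4 with h5 | h5
      · exact sub_eq_zero.1 h5
      · exact absurd h5 h2
    exact (hω.pow_eq_one_iff_dvd _).1 h3
  · intro h
    ext e
    rw [coeff_tw]
    by_cases he : e ∈ f.support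
    · rw [(hω.pow_eq_one_iff_dvd _).2 (h e he), one_mul]
    · rw [notMem_support_iff.1 he, mul_zero]

end Grading

end NormN

theorem stmt_N1 : Stmt_N1 := by
  intro L _ _ n Z w η G hZ hGs hGu hGw hη S hS u hu hint
  classical
  obtain ⟨ω, hω⟩ : ∃ ω : ℂ, IsPrimitiveRoot ω 3 := ⟨_, Complex.isPrimitiveRoot_exp 3 (by norm_num)⟩
  set φ : MvPolynomial (Fin n) ℂ →ₐ[ℂ] L := aeval Z with hφ
  have hinj : Function.Injective φ := hZ
  let algPL : Algebra (MvPolynomial (Fin n) ℂ) L := φ.toRingHom.toAlgebra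
  have halg : ∀ f, algebraMap (MvPolynomial (Fin n) ℂ) L f = φ f := fun f => rfl
  have hinj' : Function.Injective (algebraMap (MvPolynomial (Fin n) ℂ) L) := hinj
  let algKL : Algebra (FractionRing (MvPolynomial (Fin n) ℂ)) L :=
    (IsFractionRing.lift hinj').toAlgebra
  have tower : IsScalarTower (MvPolynomial (Fin n) ℂ) (FractionRing (MvPolynomial (Fin n) ℂ)) L :=
    IsScalarTower.of_algebraMap_eq fun f => (IsFractionRing.lift_algebraMap hinj' f).symm
  have tower2 : IsScalarTower ℂ (MvPolynomial (Fin n) ℂ) L :=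
    IsScalarTower.of_algebraMap_eq fun c => (φ.commutes c).symm
  have hη' : η ^ 3 = algebraMap (MvPolynomial (Fin n) ℂ) L G := hη
  set Fix : Subalgebra ℂ (MvPolynomial (Fin n) ℂ) :=
    AlgHom.equalizer (NormN.tw ω w) (AlgHom.id ℂ _) with hFix
  have memFix : ∀ f, f ∈ Fix ↔ NormN.tw ω w f = f := fun f => Iff.rfl
  have hGF : G ∈ Fix := (memFix G).2 ((NormN.tw_eq_iff hω w G).2 hGw)
  -- monomials
  have hSfix : ∀ s ∈ S, ∃ f ∈ Fix, φ f = s := by
    intro s hs
    rw [hS] at hs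
    obtain ⟨e, he, rfl⟩ := hs
    refine ⟨monomial (Finsupp.equivFunOnFinite.symm e) 1, ?_, ?_⟩
    · rw [memFix, NormN.tw_monomial]
      have : ω ^ (∑ i, w i * (Finsupp.equivFunOnFinite.symm e) i) = 1 :=
        (hω.pow_eq_one_iff_dvd _).2 (by simpa using he)
      rw [this, one_mul]
    · rw [hφ, aeval_monomial, map_one, one_mul, Finsupp.prod_fintype _ _ (fun i => by simp)]
      simp
  have hfixS : ∀ f ∈ Fix, φ f ∈ Algebra.adjoin ℂ S := by
    intro f hf
    have h1 := (NormN.tw_eq_iff hω w f).1 ((memFix f).1 hf)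
    rw [f.as_sum, map_sum]
    apply Subalgebra.sum_mem
    intro e he
    rw [hφ, aeval_monomial, Finsupp.prod_fintype _ _ (fun i => by simp)]
    apply Subalgebra.mul_mem
    · exact Subalgebra.algebraMap_mem _ _
    · apply Algebra.subset_adjoin
      rw [hS]
      exact ⟨fun i => e i, h1 e he, rfl⟩
  set A := Algebra.adjoin ℂ (S ∪ {η}) with hA
  have hSA : Algebra.adjoin ℂ S ≤ A := Algebra.adjoin_mono Set.subset_union_left
  have hηA : η ∈ A := Algebra.subset_adjoin (Set.mem_union_right _ rfl)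
  have hfixA : ∀ f ∈ Fix, φ f ∈ A := fun f hf => hSA (hfixS f hf)
  have hηφ : η ^ 3 = φ G := hη
  -- the structure of A
  have hstruct : ∀ a ∈ A, ∃ f0 ∈ Fix, ∃ f1 ∈ Fix, ∃ f2 ∈ Fix,
      a = φ f0 + φ f1 * η + φ f2 * η ^ 2 := by
    intro a ha
    induction ha using Algebra.adjoin_induction with
    | mem x hx =>
      rcases hx with hx | hx
      · obtain ⟨f, hf, rfl⟩ := hSfix x hx
        exact ⟨f, hf, 0, Fix.zero_mem, 0, Fix.zero_mem, by simp⟩
      · rw [Set.mem_singleton_iff] at hx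
        exact ⟨0, Fix.zero_mem, 1, Fix.one_mem, 0, Fix.zero_mem, by simp [hx]⟩
    | algebraMap r =>
      exact ⟨algebraMap ℂ _ r, Fix.algebraMap_mem r, 0, Fix.zero_mem, 0, Fix.zero_mem, by
        rw [φ.commutes]; simp⟩
    | add x y _ _ hx hy =>
      obtain ⟨f0, h0, f1, h1, f2, h2, rfl⟩ := hx
      obtain ⟨g0, k0, g1, k1, g2, k2, rfl⟩ := hy
      exact ⟨f0 + g0, Fix.add_mem h0 k0, f1 + g1, Fix.add_mem h1 k1, f2 + g2, Fix.add_mem h2 k2,
        by simp only [map_add]; ring⟩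
    | mul x y _ _ hx hy =>
      obtain ⟨f0, h0, f1, h1, f2, h2, rfl⟩ := hx
      obtain ⟨g0, k0, g1, k1, g2, k2, rfl⟩ := hy
      refine ⟨f0 * g0 + (f1 * g2 + f2 * g1) * G, ?_, f0 * g1 + f1 * g0 + f2 * g2 * G, ?_,
        f0 * g2 + f1 * g1 + f2 * g0, ?_, ?_⟩
      · exact Fix.add_mem (Fix.mul_mem h0 k0) (Fix.mul_mem (Fix.add_mem (Fix.mul_mem h1 k2)
          (Fix.mul_mem h2 k1)) hGF)
      · exact Fix.add_mem (Fix.add_mem (Fix.mul_mem h0 k1) (Fix.mul_mem h1 k0))
          (Fix.mul_mem (Fix.mul_mem h2 k2) hGF)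
      · exact Fix.add_mem (Fix.add_mem (Fix.mul_mem h0 k2) (Fix.mul_mem h1 k1))
          (Fix.mul_mem h2 k0)
      · simp only [map_add, map_mul, ← hηφ]
        ring
  have hstruct' : ∀ f0 ∈ Fix, ∀ f1 ∈ Fix, ∀ f2 ∈ Fix, φ f0 + φ f1 * η + φ f2 * η ^ 2 ∈ A := by
    intro f0 h0 f1 h1 f2 h2
    exact A.add_mem (A.add_mem (hfixA f0 h0) (A.mul_mem (hfixA f1 h1) hηA))
      (A.mul_mem (hfixA f2 h2) (A.pow_mem hηA 2))
  have hmapK : ∀ f, algebraMap (FractionRing (MvPolynomial (Fin n) ℂ)) L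
      (algebraMap _ (FractionRing (MvPolynomial (Fin n) ℂ)) f) = φ f := fun f => by
    rw [← IsScalarTower.algebraMap_apply]; rfl
  -- inverses
  have hinv : ∀ s ∈ A, s ≠ 0 → ∃ s' ∈ A, ∃ N ∈ Fix, N ≠ 0 ∧ s * s' = φ N := by
    intro s hs hs0
    obtain ⟨f0, h0, f1, h1, f2, h2, rfl⟩ := hstruct s hs
    set c0 := f0 ^ 2 - f1 * f2 * G with hc0
    set c1 := f2 ^ 2 * G - f0 * f1 with hc1
    set c2 := f1 ^ 2 - f0 * f2 with hc2
    have hc0F : c0 ∈ Fix := Fix.sub_mem (Fix.pow_mem h0 2) (Fix.mul_mem (Fix.mul_mem h1 h2) hGF)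
    have hc1F : c1 ∈ Fix := Fix.sub_mem (Fix.mul_mem (Fix.pow_mem h2 2) hGF) (Fix.mul_mem h0 h1)
    have hc2F : c2 ∈ Fix := Fix.sub_mem (Fix.pow_mem h1 2) (Fix.mul_mem h0 h2)
    refine ⟨φ c0 + φ c1 * η + φ c2 * η ^ 2, hstruct' c0 hc0F c1 hc1F c2 hc2F,
      f0 ^ 3 + f1 ^ 3 * G + f2 ^ 3 * G ^ 2 - 3 * f0 * f1 * f2 * G, ?_, ?_, ?_⟩
    · apply Fix.sub_mem
      · exact Fix.add_mem (Fix.add_mem (Fix.pow_mem h0 3) (Fix.mul_mem (Fix.pow_mem h1 3) hGF))
          (Fix.mul_mem (Fix.pow_mem h2 3) (Fix.pow_mem hGF 2))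
      · exact Fix.mul_mem (Fix.mul_mem (Fix.mul_mem (Fix.mul_mem (Fix.natCast_mem 3) h0) h1) h2) hGF
    · intro hN
      have hprod : (φ f0 + φ f1 * η + φ f2 * η ^ 2) * (φ c0 + φ c1 * η + φ c2 * η ^ 2) = 0 := by
        have : (φ f0 + φ f1 * η + φ f2 * η ^ 2) * (φ c0 + φ c1 * η + φ c2 * η ^ 2) =
            φ (f0 ^ 3 + f1 ^ 3 * G + f2 ^ 3 * G ^ 2 - 3 * f0 * f1 * f2 * G) := by
          simp only [hc0, hc1, hc2, map_add, map_sub, map_mul, map_pow, map_ofNat, ← hηφ]
          ring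
        rw [this, hN, map_zero]
      have h3 : φ c0 + φ c1 * η + φ c2 * η ^ 2 = 0 := by
        rcases mul_eq_zero.1 hprod with h | h
        · exact absurd h hs0
        · exact h
      rw [← hmapK, ← hmapK, ← hmapK] at h3
      obtain ⟨e0, e1, e2⟩ := NormN.lin_indep hGs hGu hη' h3
      have e0' : c0 = 0 := IsFractionRing.injective _ _ (by rw [e0, map_zero])
      have e1' : c1 = 0 := IsFractionRing.injective _ _ (by rw [e1, map_zero])
      have e2' : c2 = 0 := IsFractionRing.injective _ _ (by rw [e2, map_zero])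
      have hcube : f0 ^ 3 = f1 ^ 3 * G := by
        have : f0 ^ 3 - f1 ^ 3 * G = f0 * c0 - f1 * G * c2 := by rw [hc0, hc2]; ring
        rw [e0', e2'] at this
        simp only [mul_zero, sub_zero] at this
        exact sub_eq_zero.1 this
      by_cases hf1 : f1 = 0
      · rw [hf1] at hcube
        have hf0 : f0 = 0 := by
          have : f0 ^ 3 = 0 := by rw [hcube]; ring
          exact pow_eq_zero_iff (by norm_num) |>.1 this
        have hG0 : G ≠ 0 := hGs.ne_zero
        have hf2 : f2 = 0 := by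
          have h5 : f2 ^ 2 * G = 0 := by
            have : f2 ^ 2 * G = c1 + f0 * f1 := by rw [hc1]; ring
            rw [this, e1', hf0]; ring
          rcases mul_eq_zero.1 h5 with h6 | h6
          · exact pow_eq_zero_iff (by norm_num) |>.1 h6
          · exact absurd h6 hG0
        apply hs0
        rw [hf0, hf1, hf2]
        simp
      · apply NormN.not_cube (K0 := FractionRing (MvPolynomial (Fin n) ℂ)) hGs hGu
          (algebraMap _ _ f0 / algebraMap _ _ f1)
        have hf1' : algebraMap _ (FractionRing (MvPolynomial (Fin n) ℂ)) f1 ≠ 0 := by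
          intro h
          exact hf1 (IsFractionRing.injective _ _ (by rw [h, map_zero]))
        rw [div_pow, div_eq_iff (pow_ne_zero 3 hf1'), ← map_pow, hcube, map_mul, map_pow]
        ring
    · simp only [hc0, hc1, hc2, map_add, map_sub, map_mul, map_pow, map_ofNat, ← hηφ]
      ring
  -- write u as a quotient
  obtain ⟨r, hr, s, hs, hrs⟩ := (IntermediateField.mem_adjoin_iff_div).1 hu
  by_cases hs0 : s = 0
  · rw [hrs, hs0, div_zero]
    exact A.zero_mem
  obtain ⟨s', hs'A, N, hNF, hN0, hN⟩ := hinv s hs hs0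
  obtain ⟨f0, h0, f1, h1, f2, h2, hf⟩ := hstruct (r * s') (A.mul_mem hr hs'A)
  have hφN : φ N ≠ 0 := fun h => hN0 (hinj (by rw [h, map_zero]))
  have hs'0 : s' ≠ 0 := by
    intro h
    rw [h, mul_zero] at hN
    exact hφN hN.symm
  have huN : u * φ N = φ f0 + φ f1 * η + φ f2 * η ^ 2 := by
    rw [← hf, ← hN, hrs]
    field_simp
  have hN0K : algebraMap _ (FractionRing (MvPolynomial (Fin n) ℂ)) N ≠ 0 := by
    intro h
    exact hN0 (IsFractionRing.injective _ _ (by rw [h, map_zero]))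
  have hu' : u = algebraMap (FractionRing (MvPolynomial (Fin n) ℂ)) L
      (algebraMap _ _ f0 / algebraMap _ _ N) +
      algebraMap (FractionRing (MvPolynomial (Fin n) ℂ)) L
      (algebraMap _ _ f1 / algebraMap _ _ N) * η +
      algebraMap (FractionRing (MvPolynomial (Fin n) ℂ)) L
      (algebraMap _ _ f2 / algebraMap _ _ N) * η ^ 2 := by
    rw [map_div₀, map_div₀, map_div₀, hmapK, hmapK, hmapK, hmapK]
    field_simp
    rw [huN]
    ring
  -- u is integral over P
  have hintP : IsIntegral (MvPolynomial (Fin n) ℂ) u := by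
    have hAC : ∀ a ∈ A, a ∈ integralClosure (MvPolynomial (Fin n) ℂ) L := by
      intro a ha
      obtain ⟨g0, k0, g1, k1, g2, k2, rfl⟩ := hstruct a ha
      have hηi : IsIntegral (MvPolynomial (Fin n) ℂ) η := by
        refine ⟨Polynomial.X ^ 3 - Polynomial.C G, Polynomial.monic_X_pow_sub_C G (by norm_num), ?_⟩
        simp [hη']
      exact ((isIntegral_algebraMap (x := g0)).add ((isIntegral_algebraMap (x := g1)).mul hηi)).add
        ((isIntegral_algebraMap (x := g2)).mul (hηi.pow 2))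
    obtain ⟨p, hpm, hp⟩ := hint
    let ι : A →+* integralClosure (MvPolynomial (Fin n) ℂ) L :=
      { toFun := fun a => ⟨a.1, hAC a.1 a.2⟩
        map_one' := rfl
        map_mul' := fun _ _ => rfl
        map_zero' := rfl
        map_add' := fun _ _ => rfl }
    have h3 : IsIntegral (integralClosure (MvPolynomial (Fin n) ℂ) L) u := by
      refine ⟨p.map ι, hpm.map ι, ?_⟩
      rw [Polynomial.eval₂_map]
      exact hp
    exact isIntegral_trans u h3
  rw [hu'] at hintP
  obtain ⟨a, b, c, ha, hb, hc⟩ := NormN.coeffs_integral hGs hGu hη' hintP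
  have key : ∀ a f : MvPolynomial (Fin n) ℂ, f ∈ Fix →
      algebraMap _ (FractionRing (MvPolynomial (Fin n) ℂ)) a =
        algebraMap _ _ f / algebraMap _ _ N → a ∈ Fix := by
    intro a f hf haf
    rw [eq_div_iff hN0K, ← map_mul] at haf
    have h3 : a * N = f := IsFractionRing.injective _ _ haf
    rw [memFix] at hf hNF ⊢
    have h4 : NormN.tw ω w a * N = a * N := by
      have h5 := congrArg (NormN.tw ω w) h3
      rw [map_mul, hNF, hf, ← h3] at h5
      exact h5
    exact mul_right_cancel₀ hN0 h4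
  rw [hu', ← ha, ← hb, ← hc, hmapK, hmapK, hmapK]
  exact hstruct' a (key a f0 h0 ha) b (key b f1 h1 hb) c (key c f2 h2 hc)

end Pool.Agent.MPad0563
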