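import Pool.Agent.Work.MP_ad0563_ag_helper47.N2

/-!
# MP_ad0563_ag, block N2: the singular charts and the final statement
-/

open MvPolynomial

namespace Pool.Agent.MPad0563

namespace NormN

lemma pick {L : Type} [Field L] (Z : Fin 4 → L) (e : Fin 4 → ℕ) (h : 0 < ∑ i, e i) :
    ∃ (i : Fin 4) (e' : Fin 4 → ℕ), ∑ i, e' i + 1 = ∑ i, e i ∧
      ∏ j, Z j ^ e j = Z i * ∏ j, Z j ^ e' j := by
  obtain ⟨i, -, hi⟩ : ∃ i ∈ (Finset.univ : Finset (Fin 4)), e i ≠ 0 := by
    by_contra hc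
    push Not at hc
    have : ∑ i, e i = 0 := Finset.sum_eq_zero hc
    omega
  refine ⟨i, Function.update e i (e i - 1), ?_, ?_⟩
  · rw [Finset.sum_update_of_mem (Finset.mem_univ i),
      ← Finset.add_sum_erase Finset.univ e (Finset.mem_univ i), Finset.sdiff_singleton_eq_erase]
    omega
  · rw [← Finset.mul_prod_erase Finset.univ (fun j => Z j ^ e j) (Finset.mem_univ i),
      ← Finset.mul_prod_erase Finset.univ (fun j => Z j ^ (Function.update e i (e i - 1)) j)
        (Finset.mem_univ i)]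
    have h1 : ∏ j ∈ Finset.univ.erase i, Z j ^ (Function.update e i (e i - 1)) j =
        ∏ j ∈ Finset.univ.erase i, Z j ^ e j := by
      apply Finset.prod_congr rfl
      intro j hj
      rw [Function.update_of_ne (Finset.ne_of_mem_erase hj)]
    rw [h1, Function.update_self, ← mul_assoc, ← pow_succ', Nat.sub_add_cancel (by omega)]

lemma mono3 {L : Type} [Field L] [Algebra ℂ L] (C : Subalgebra ℂ L) (Z : Fin 4 → L)
    (hC : ∀ i j k, Z i * Z j * Z k ∈ C) : ∀ (N : ℕ) (e : Fin 4 → ℕ), ∑ i, e i = 3 * N →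
      ∏ i, Z i ^ e i ∈ C := by
  intro N
  induction N with
  | zero =>
    intro e he
    have h0 : ∀ i, e i = 0 := by simpa using he
    have : ∏ i, Z i ^ e i = 1 := by
      apply Finset.prod_eq_one
      intro i _
      rw [h0, pow_zero]
    rw [this]; exact C.one_mem
  | succ N ih =>
    intro e he
    obtain ⟨i, e1, h1, p1⟩ := pick Z e (by omega)
    obtain ⟨j, e2, h2, p2⟩ := pick Z e1 (by omega)
    obtain ⟨k, e3, h3, p3⟩ := pick Z e2 (by omega)
    rw [p1, p2, p3]
    have e : Z i * (Z j * (Z k * ∏ l, Z l ^ e3 l)) = (Z i * Z j * Z k) * ∏ l, Z l ^ e3 l := by ring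
    rw [e]
    exact mul_mem (hC i j k) (ih e3 (by omega))

/-- the monomials of the second singular chart -/
lemma mono2 {L : Type} [Field L] [Algebra ℂ L] (C : Subalgebra ℂ L) (z0 z1 z2 : L)
    (h000 : z0 * z0 * z0 ∈ C) (h001 : z0 * z0 * z1 ∈ C) (h011 : z0 * z1 * z1 ∈ C)
    (h111 : z1 * z1 * z1 ∈ C) (h02 : z0 * z2 ∈ C) (h12 : z1 * z2 ∈ C)
    (h222 : z2 * z2 * z2 ∈ C) : ∀ (N e0 e1 e2 : ℕ), e0 + e1 + e2 = N →
      3 ∣ e0 + e1 + 2 * e2 → z0 ^ e0 * z1 ^ e1 * z2 ^ e2 ∈ C := by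
  intro N
  induction N using Nat.strong_induction_on with
  | _ N ih =>
    intro e0 e1 e2 hN h3
    rcases Nat.eq_zero_or_pos e2 with h2 | h2
    · subst h2
      by_cases c3 : 3 ≤ e0
      · obtain ⟨f, rfl⟩ := Nat.exists_eq_add_of_le c3
        have := mul_mem h000 (ih (f + e1) (by omega) f e1 0 (by omega) (by omega))
        convert this using 1; ring
      · by_cases c0 : e0 = 0
        · subst c0
          rcases Nat.eq_zero_or_pos e1 with h1 | h1
          · subst h1; simpa using C.one_mem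
          · obtain ⟨f, rfl⟩ := Nat.exists_eq_add_of_le (show 3 ≤ e1 by omega)
            have := mul_mem h111 (ih (0 + f) (by omega) 0 f 0 (by omega) (by omega))
            convert this using 1; ring
        · by_cases c1 : e0 = 1
          · subst c1
            obtain ⟨f, rfl⟩ := Nat.exists_eq_add_of_le (show 2 ≤ e1 by omega)
            have := mul_mem h011 (ih (0 + f) (by omega) 0 f 0 (by omega) (by omega))
            convert this using 1; ring
          · have c2 : e0 = 2 := by omega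
            subst c2
            obtain ⟨f, rfl⟩ := Nat.exists_eq_add_of_le (show 1 ≤ e1 by omega)
            have := mul_mem h001 (ih (0 + f) (by omega) 0 f 0 (by omega) (by omega))
            convert this using 1; ring
    · rcases Nat.eq_zero_or_pos e0 with h0 | h0
      · rcases Nat.eq_zero_or_pos e1 with h1 | h1
        · subst h0 h1
          obtain ⟨f, rfl⟩ := Nat.exists_eq_add_of_le (show 3 ≤ e2 by omega)
          have := mul_mem h222 (ih f (by omega) 0 0 f (by omega) (by omega))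
          convert this using 1; ring
        · obtain ⟨f, rfl⟩ := Nat.exists_eq_add_of_le h1
          obtain ⟨g, rfl⟩ := Nat.exists_eq_add_of_le h2
          have := mul_mem h12 (ih (e0 + f + g) (by omega) e0 f g (by omega) (by omega))
          convert this using 1; ring
      · obtain ⟨f, rfl⟩ := Nat.exists_eq_add_of_le h0
        obtain ⟨g, rfl⟩ := Nat.exists_eq_add_of_le h2
        have := mul_mem h02 (ih (f + e1 + g) (by omega) f e1 g (by omega) (by omega))
        convert this using 1; ring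

lemma G4_weights (w : Fin 4 → ℕ) : ∀ e ∈ G4.support, 3 ∣ ∑ i, w i * e i := by
  obtain ⟨ω, hω⟩ : ∃ ω : ℂ, IsPrimitiveRoot ω 3 := ⟨_, Complex.isPrimitiveRoot_exp 3 (by norm_num)⟩
  apply (tw_eq_iff hω w G4).1
  have h9 : ∀ k : ℕ, ((C ω : MvPolynomial (Fin 4) ℂ) ^ k) ^ 9 = 1 := by
    intro k
    rw [← pow_mul, show k * 9 = 3 * (3 * k) by ring, pow_mul, ← C_pow, hω.pow_eq_one, C_1, one_pow]
  unfold G4 tw
  simp only [map_neg, map_add, map_one, map_pow, aeval_X, mul_pow]
  rw [h9, h9]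
  simp

section Charts

variable {K : Type} [Field K] [Algebra ℂ K] {t x y a b : K}

theorem icl_R0 (h : IsDatum t x y a b) : IsIntegrallyClosedIn (algR0 t x y a b) K := by
  obtain ⟨ht0, hx0, hy0, ha0, hb0⟩ := ne_zero h
  set ι := algebraMap K (AlgebraicClosure K) with hι
  obtain ⟨z, hz⟩ : ∃ z : AlgebraicClosure K, z ^ 3 = (ι x)⁻¹ :=
    IsAlgClosed.exists_pow_nat_eq _ (by norm_num)
  have hX0 : ι x ≠ 0 := (map_ne_zero ι).2 hx0
  have hA0 : ι a ≠ 0 := (map_ne_zero ι).2 ha0
  have hz0 : z ≠ 0 := by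
    intro h0
    rw [h0] at hz
    have : (ι x)⁻¹ = 0 := by rw [← hz]; ring
    exact hX0 (inv_eq_zero.1 this)
  set v : Fin 4 → K := ![1, t, a, b] with hv
  set Z : Fin 4 → AlgebraicClosure K := fun i => ι (v i) * z with hZ
  have hZ3 : ∀ i j k, ι (v i * v j * v k / x) = Z i * Z j * Z k := by
    intro i j k
    have : Z i * Z j * Z k = ι (v i) * ι (v j) * ι (v k) * z ^ 3 := by
      simp only [hZ]; ring
    rw [this, hz, map_div₀, map_mul, map_mul, div_eq_mul_inv]
  have hZ0 : Z 0 = z := by simp [hZ, hv]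
  have hZ1 : Z 1 = ι t * z := by simp [hZ, hv]
  have hZ2 : Z 2 = ι a * z := by simp [hZ, hv]
  have hZ3' : Z 3 = ι b * z := by simp [hZ, hv]
  have hx' : ι x = (Z 0 ^ 3)⁻¹ := by rw [hZ0, hz, inv_inv]
  have ht' : ι t = Z 1 * (Z 0)⁻¹ := by rw [hZ0, hZ1]; field_simp
  have ha' : ι a = Z 2 * (Z 0)⁻¹ := by rw [hZ0, hZ2]; field_simp
  have hb' : ι b = Z 3 * (Z 0)⁻¹ := by rw [hZ0, hZ3']; field_simp
  have hmemSS : ∀ i j k, Z i * Z j * Z k ∈ SS Z (fun _ => 1) := by
    intro i j k
    refine mem_SS (Pi.single i 1 + Pi.single j 1 + Pi.single k 1) ?_ ?_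
    · simp [Finset.sum_add_distrib]
    · have key : ∀ i : Fin 4, ∏ l, Z l ^ (Pi.single i 1 : Fin 4 → ℕ) l = Z i := by
        intro i
        rw [Finset.prod_eq_single i]
        · simp
        · intro j _ hj
          simp [Pi.single_eq_of_ne hj]
        · simp
      simp only [Pi.add_apply, pow_add, Finset.prod_mul_distrib, key]
  have hA : (algR0 t x y a b).map (IsScalarTower.toAlgHom ℂ K (AlgebraicClosure K)) =
      Algebra.adjoin ℂ (SS Z (fun _ => 1) ∪ {ι (y / x)}) := by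
    apply le_antisymm
    · unfold algR0
      rw [AlgHom.map_adjoin]
      apply Algebra.adjoin_le
      rintro _ ⟨_, ⟨j, rfl⟩, rfl⟩
      rcases j with ⟨i, j, k⟩ | j
      · have : (IsScalarTower.toAlgHom ℂ K (AlgebraicClosure K))
            (cub ![1, t, a, b] x y (Sum.inl (i, j, k)) / x) = Z i * Z j * Z k := hZ3 i j k
        rw [this]
        exact Algebra.subset_adjoin (Or.inl (hmemSS i j k))
      · fin_cases j
        · have : (IsScalarTower.toAlgHom ℂ K (AlgebraicClosure K))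
            (cub ![1, t, a, b] x y (Sum.inr 0) / x) = 1 := by
            simp [cub, hx0]
          have e : (IsScalarTower.toAlgHom ℂ K (AlgebraicClosure K))
            (cub ![1, t, a, b] x y (Sum.inr ((fun i => i) ⟨0, by norm_num⟩)) / x) = 1 := this
          rw [e]
          exact one_mem _
        · exact Algebra.subset_adjoin (Or.inr rfl)
    · apply Algebra.adjoin_le
      rintro u (⟨e, he, rfl⟩ | rfl)
      · obtain ⟨N, hN⟩ := he
        apply mono3 _ Z _ N e (by simpa using hN)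
        intro i j k
        refine ⟨v i * v j * v k / x, ?_, hZ3 i j k⟩
        exact Algebra.subset_adjoin ⟨Sum.inl (i, j, k), rfl⟩
      · exact ⟨y / x, Algebra.subset_adjoin ⟨Sum.inr 1, rfl⟩, rfl⟩
  -- generation
  have mSS : ∀ i j k, Z i * Z j * Z k ∈
      IntermediateField.adjoin ℂ (SS Z (fun _ => 1) ∪ {ι (y / x)}) :=
    fun i j k => IntermediateField.subset_adjoin _ _ (Or.inl (hmemSS i j k))
  have mη : ι (y / x) ∈ IntermediateField.adjoin ℂ (SS Z (fun _ => 1) ∪ {ι (y / x)}) :=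
    IntermediateField.subset_adjoin _ _ (Or.inr rfl)
  have hZ00 : Z 0 ≠ 0 := by rw [hZ0]; exact hz0
  have mx : ι x ∈ IntermediateField.adjoin ℂ (SS Z (fun _ => 1) ∪ {ι (y / x)}) := by
    rw [hx']
    have := inv_mem (mSS 0 0 0)
    convert this using 1
    ring
  have mfrac : ∀ i, Z i * (Z 0)⁻¹ ∈
      IntermediateField.adjoin ℂ (SS Z (fun _ => 1) ∪ {ι (y / x)}) := by
    intro i
    have := div_mem (mSS 0 0 i) (mSS 0 0 0)
    convert this using 1
    field_simp
  apply icl_of_N1 (L := AlgebraicClosure K) _ Z (fun _ => 1) (ι (y / x)) G4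
  · apply datum_algInd (L := AlgebraicClosure K) h
    · change IsAlgebraic _ (ι t)
      rw [ht']
      exact (isAlg_mem 1).mul (isAlg_mem 0).inv
    · change IsAlgebraic _ (ι x)
      rw [hx']
      exact ((isAlg_mem 0).pow 3).inv
    · change IsAlgebraic _ (ι a)
      rw [ha']
      exact (isAlg_mem 2).mul (isAlg_mem 0).inv
    · change IsAlgebraic _ (ι b)
      rw [hb']
      exact (isAlg_mem 3).mul (isAlg_mem 0).inv
  · exact squarefree_G4
  · exact not_isUnit_G4
  · exact G4_weights _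
  · unfold G4
    simp only [map_neg, map_add, map_one, map_pow, aeval_X, map_div₀, hZ0, hZ1, mul_pow]
    have hz9 : z ^ 9 = (ι x)⁻¹ ^ 3 := by rw [← hz]; ring
    rw [hz9]
    have hrel := congrArg ι h.rel
    simp only [map_add, map_pow, map_one, map_zero] at hrel
    field_simp
    linear_combination hrel
  · exact hA
  · intro w
    refine field_gen (L := AlgebraicClosure K) h _ ?_ mx ?_ ?_ ?_ w
    · change ι t ∈ _
      rw [ht']; exact mfrac 1
    · change ι y ∈ _
      have := mul_mem mη mx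
      rwa [← map_mul, div_mul_cancel₀ _ hx0] at this
    · change ι a ∈ _
      rw [ha']; exact mfrac 2
    · change ι b ∈ _
      rw [hb']; exact mfrac 3

theorem icl_R1 (h : IsDatum t x y a b) : IsIntegrallyClosedIn (algR1 t x y a b) K := by
  obtain ⟨ht0, hx0, hy0, ha0, hb0⟩ := ne_zero h
  set ι := algebraMap K (AlgebraicClosure K) with hι
  obtain ⟨z, hz⟩ : ∃ z : AlgebraicClosure K, z ^ 3 = (ι x)⁻¹ :=
    IsAlgClosed.exists_pow_nat_eq _ (by norm_num)
  have hX0 : ι x ≠ 0 := (map_ne_zero ι).2 hx0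
  have hA0 : ι a ≠ 0 := (map_ne_zero ι).2 ha0
  have hz0 : z ≠ 0 := by
    intro h0
    rw [h0] at hz
    have : (ι x)⁻¹ = 0 := by rw [← hz]; ring
    exact hX0 (inv_eq_zero.1 this)
  set w : Fin 4 → ℕ := ![1, 1, 2, 0] with hw
  set Z : Fin 4 → AlgebraicClosure K := ![z, ι t * z, (ι a * z)⁻¹, ι (b / a)] with hZ
  have hZ0 : Z 0 = z := by simp [hZ]
  have hZ1 : Z 1 = ι t * z := by simp [hZ]
  have hZ2 : Z 2 = (ι a * z)⁻¹ := by simp [hZ]
  have hZ3 : Z 3 = ι (b / a) := by simp [hZ]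
  have hsum : ∀ e : Fin 4 → ℕ, ∑ i, w i * e i = e 0 + e 1 + 2 * e 2 := by
    intro e
    rw [Fin.sum_univ_four]
    simp [hw]
  have hmem : ∀ e0 e1 e2 e3 : ℕ, 3 ∣ e0 + e1 + 2 * e2 →
      Z 0 ^ e0 * Z 1 ^ e1 * Z 2 ^ e2 * Z 3 ^ e3 ∈ SS Z w := by
    intro e0 e1 e2 e3 h3
    refine mem_SS ![e0, e1, e2, e3] ?_ ?_
    · rw [hsum]; simpa using h3
    · rw [prod4]; simp
  -- the generators
  have g000 : ι (1 / x) = Z 0 ^ 3 * Z 1 ^ 0 * Z 2 ^ 0 * Z 3 ^ 0 := by
    rw [hZ0, hz, one_div, map_inv₀]; ring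
  have g001 : ι (t / x) = Z 0 ^ 2 * Z 1 ^ 1 * Z 2 ^ 0 * Z 3 ^ 0 := by
    have : Z 0 ^ 2 * Z 1 ^ 1 * Z 2 ^ 0 * Z 3 ^ 0 = ι t * z ^ 3 := by
      rw [hZ0, hZ1]; ring
    rw [this, hz, map_div₀, div_eq_mul_inv]
  have g011 : ι (t ^ 2 / x) = Z 0 ^ 1 * Z 1 ^ 2 * Z 2 ^ 0 * Z 3 ^ 0 := by
    have : Z 0 ^ 1 * Z 1 ^ 2 * Z 2 ^ 0 * Z 3 ^ 0 = ι t ^ 2 * z ^ 3 := by
      rw [hZ0, hZ1]; ring
    rw [this, hz, map_div₀, map_pow, div_eq_mul_inv]
  have g111 : ι (t ^ 3 / x) = Z 0 ^ 0 * Z 1 ^ 3 * Z 2 ^ 0 * Z 3 ^ 0 := by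
    have : Z 0 ^ 0 * Z 1 ^ 3 * Z 2 ^ 0 * Z 3 ^ 0 = ι t ^ 3 * z ^ 3 := by
      rw [hZ1]; ring
    rw [this, hz, map_div₀, map_pow, div_eq_mul_inv]
  have g02 : ι (a⁻¹) = Z 0 ^ 1 * Z 1 ^ 0 * Z 2 ^ 1 * Z 3 ^ 0 := by
    rw [hZ0, hZ2, map_inv₀]; field_simp
  have g12 : ι (t / a) = Z 0 ^ 0 * Z 1 ^ 1 * Z 2 ^ 1 * Z 3 ^ 0 := by
    rw [hZ1, hZ2, map_div₀]; field_simp
  have g3 : ι (b / a) = Z 0 ^ 0 * Z 1 ^ 0 * Z 2 ^ 0 * Z 3 ^ 1 := by
    rw [hZ3]; ring
  have g222 : ι (x / a ^ 3) = Z 0 ^ 0 * Z 1 ^ 0 * Z 2 ^ 3 * Z 3 ^ 0 := by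
    have : Z 0 ^ 0 * Z 1 ^ 0 * Z 2 ^ 3 * Z 3 ^ 0 = (ι a ^ 3)⁻¹ * (z ^ 3)⁻¹ := by
      rw [hZ2, mul_inv, mul_pow]; ring
    rw [this, hz, map_div₀, map_pow, inv_inv, div_eq_mul_inv, mul_comm]
  have hx' : ι x = (Z 0 ^ 3)⁻¹ := by rw [hZ0, hz, inv_inv]
  have ht' : ι t = Z 1 * (Z 0)⁻¹ := by rw [hZ0, hZ1]; field_simp
  have ha' : ι a = (Z 0 * Z 2)⁻¹ := by rw [hZ0, hZ2]; field_simp
  have hb' : ι b = Z 3 * (Z 0 * Z 2)⁻¹ := by
    rw [← ha', hZ3, ← map_mul, div_mul_cancel₀ _ ha0]
  have hA : (algR1 t x y a b).map (IsScalarTower.toAlgHom ℂ K (AlgebraicClosure K)) =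
      Algebra.adjoin ℂ (SS Z w ∪ {ι (y / x)}) := by
    apply le_antisymm
    · unfold algR1
      rw [AlgHom.map_adjoin]
      apply Algebra.adjoin_le
      have key : ∀ u : K, ι u ∈ SS Z w → (IsScalarTower.toAlgHom ℂ K (AlgebraicClosure K)) u ∈
          Algebra.adjoin ℂ (SS Z w ∪ {ι (y / x)}) :=
        fun u hu => Algebra.subset_adjoin (Or.inl hu)
      rintro _ ⟨u, (⟨j, rfl⟩ | hu), rfl⟩
      · rcases j with ⟨i, j, k⟩ | j
        · have e1 : cub ![1, t] x y (Sum.inl (i, j, k)) / x = 1 / x ∨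
              cub ![1, t] x y (Sum.inl (i, j, k)) / x = t / x ∨
              cub ![1, t] x y (Sum.inl (i, j, k)) / x = t ^ 2 / x ∨
              cub ![1, t] x y (Sum.inl (i, j, k)) / x = t ^ 3 / x := by
            fin_cases i <;> fin_cases j <;> fin_cases k <;> simp [cub] <;> ring_nf <;> tauto
          apply key
          change ι (cub ![1, t] x y (Sum.inl (i, j, k)) / x) ∈ SS Z w
          rcases e1 with e1 | e1 | e1 | e1 <;> rw [e1]
          · rw [g000]; exact hmem _ _ _ _ (by norm_num)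
          · rw [g001]; exact hmem _ _ _ _ (by norm_num)
          · rw [g011]; exact hmem _ _ _ _ (by norm_num)
          · rw [g111]; exact hmem _ _ _ _ (by norm_num)
        · fin_cases j
          · have e : (IsScalarTower.toAlgHom ℂ K (AlgebraicClosure K))
              (cub ![1, t] x y (Sum.inr ((fun i => i) ⟨0, by norm_num⟩)) / x) = 1 := by
              change ι (x / x) = 1
              rw [div_self hx0, map_one]
            rw [e]
            exact one_mem _
          · exact Algebra.subset_adjoin (Or.inr rfl)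
      · simp only [Set.mem_insert_iff, Set.mem_singleton_iff] at hu
        apply key
        rcases hu with rfl | rfl | rfl | rfl
        · rw [g02]; exact hmem _ _ _ _ (by norm_num)
        · rw [g12]; exact hmem _ _ _ _ (by norm_num)
        · rw [g3]; exact hmem _ _ _ _ (by norm_num)
        · rw [g222]; exact hmem _ _ _ _ (by norm_num)
    · apply Algebra.adjoin_le
      have key : ∀ u ∈ algR1 t x y a b, ι u ∈
          (algR1 t x y a b).map (IsScalarTower.toAlgHom ℂ K (AlgebraicClosure K)) :=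
        fun u hu => ⟨u, hu, rfl⟩
      have k0 : ∀ u ∈ ((Set.range fun j => cub ![1, t] x y j / x) ∪
          {a⁻¹, t / a, b / a, x / a ^ 3} : Set K), ι u ∈
          (algR1 t x y a b).map (IsScalarTower.toAlgHom ℂ K (AlgebraicClosure K)) :=
        fun u hu => key u (Algebra.subset_adjoin hu)
      rintro u (⟨e, he, rfl⟩ | rfl)
      · rw [hsum] at he
        rw [prod4]
        apply mul_mem
        · apply mono2 _ _ _ _ ?_ ?_ ?_ ?_ ?_ ?_ ?_ _ _ _ _ rfl he
          · have := k0 (1 / x) (Or.inl ⟨Sum.inl (0, 0, 0), by simp [cub]⟩)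
            rw [g000] at this
            convert this using 1; ring
          · have := k0 (t / x) (Or.inl ⟨Sum.inl (0, 0, 1), by simp [cub]⟩)
            rw [g001] at this
            convert this using 1; ring
          · have := k0 (t ^ 2 / x) (Or.inl ⟨Sum.inl (0, 1, 1), by simp [cub]; ring⟩)
            rw [g011] at this
            convert this using 1; ring
          · have := k0 (t ^ 3 / x) (Or.inl ⟨Sum.inl (1, 1, 1), by simp [cub]; ring⟩)
            rw [g111] at this
            convert this using 1; ring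
          · have := k0 (a⁻¹) (Or.inr (by simp))
            rw [g02] at this
            convert this using 1; ring
          · have := k0 (t / a) (Or.inr (by simp))
            rw [g12] at this
            convert this using 1; ring
          · have := k0 (x / a ^ 3) (Or.inr (by simp))
            rw [g222] at this
            convert this using 1; ring
        · apply pow_mem
          rw [hZ3]
          exact k0 _ (Or.inr (by simp))
      · exact k0 _ (Or.inl ⟨Sum.inr 1, rfl⟩)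
  -- generation
  have mSS : ∀ e0 e1 e2 e3 : ℕ, 3 ∣ e0 + e1 + 2 * e2 →
      Z 0 ^ e0 * Z 1 ^ e1 * Z 2 ^ e2 * Z 3 ^ e3 ∈
      IntermediateField.adjoin ℂ (SS Z w ∪ {ι (y / x)}) :=
    fun e0 e1 e2 e3 h3 => IntermediateField.subset_adjoin _ _ (Or.inl (hmem e0 e1 e2 e3 h3))
  have mη : ι (y / x) ∈ IntermediateField.adjoin ℂ (SS Z w ∪ {ι (y / x)}) :=
    IntermediateField.subset_adjoin _ _ (Or.inr rfl)
  have mx : ι x ∈ IntermediateField.adjoin ℂ (SS Z w ∪ {ι (y / x)}) := by
    have := inv_mem (mSS 3 0 0 0 (by norm_num))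
    rw [← g000, ← map_inv₀] at this
    simpa using this
  have ma : ι a ∈ IntermediateField.adjoin ℂ (SS Z w ∪ {ι (y / x)}) := by
    have := inv_mem (mSS 1 0 1 0 (by norm_num))
    rw [← g02, ← map_inv₀] at this
    simpa using this
  have mt : ι t ∈ IntermediateField.adjoin ℂ (SS Z w ∪ {ι (y / x)}) := by
    have := mul_mem (mSS 0 1 1 0 (by norm_num)) ma
    rw [← g12, ← map_mul] at this
    simpa [div_mul_cancel₀ _ ha0] using this
  have mb : ι b ∈ IntermediateField.adjoin ℂ (SS Z w ∪ {ι (y / x)}) := by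
    have := mul_mem (mSS 0 0 0 1 (by norm_num)) ma
    rw [← g3, ← map_mul] at this
    simpa [div_mul_cancel₀ _ ha0] using this
  apply icl_of_N1 (L := AlgebraicClosure K) _ Z w (ι (y / x)) G4
  · apply datum_algInd (L := AlgebraicClosure K) h
    · change IsAlgebraic _ (ι t)
      rw [ht']
      exact (isAlg_mem 1).mul (isAlg_mem 0).inv
    · change IsAlgebraic _ (ι x)
      rw [hx']
      exact ((isAlg_mem 0).pow 3).inv
    · change IsAlgebraic _ (ι a)
      rw [ha']
      exact ((isAlg_mem 0).mul (isAlg_mem 2)).inv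
    · change IsAlgebraic _ (ι b)
      rw [hb']
      exact (isAlg_mem 3).mul ((isAlg_mem 0).mul (isAlg_mem 2)).inv
  · exact squarefree_G4
  · exact not_isUnit_G4
  · exact G4_weights _
  · unfold G4
    simp only [map_neg, map_add, map_one, map_pow, aeval_X, map_div₀, hZ0, hZ1, mul_pow]
    have hz9 : z ^ 9 = (ι x)⁻¹ ^ 3 := by rw [← hz]; ring
    rw [hz9]
    have hrel := congrArg ι h.rel
    simp only [map_add, map_pow, map_one, map_zero] at hrel
    field_simp
    linear_combination hrel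
  · exact hA
  · intro u
    refine field_gen (L := AlgebraicClosure K) h _ mt mx ?_ ma mb u
    have := mul_mem mη mx
    rwa [← map_mul, div_mul_cancel₀ _ hx0] at this

end Charts

end NormN

theorem stmt_N2 : Stmt_N2 := fun K _ _ t x y a b h =>
  ⟨NormN.icl_T1 h, NormN.icl_T2 h, NormN.icl_T3 h, NormN.icl_R0 h, NormN.icl_R1 h⟩

end Pool.Agent.MPad0563
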