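import Pool.Agent.Work.MP_ad0563_ag.Interface

/-!
# MP_ad0563_ag, blocks Sym and Exists
-/

open MvPolynomial

namespace Pool.Agent.MPad0563

section Alg

variable {K : Type} [Field K] [Algebra ℂ K] {t x y a b : K}

/-- Four elements over which `t, x, a, b` are algebraic are algebraically independent. -/
lemma datum_algInd {L : Type} [Field L] [Algebra ℂ L] [Algebra K L] [IsScalarTower ℂ K L]
    [Algebra.IsAlgebraic K L] (h : IsDatum t x y a b) (v : Fin 4 → L)
    (ht : IsAlgebraic (Algebra.adjoin ℂ (Set.range v)) (algebraMap K L t))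
    (hx : IsAlgebraic (Algebra.adjoin ℂ (Set.range v)) (algebraMap K L x))
    (ha : IsAlgebraic (Algebra.adjoin ℂ (Set.range v)) (algebraMap K L a))
    (hb : IsAlgebraic (Algebra.adjoin ℂ (Set.range v)) (algebraMap K L b)) :
    AlgebraicIndependent ℂ v := by
  set B := Algebra.adjoin ℂ (Set.range v) with hB
  have hy : IsAlgebraic B (algebraMap K L y) := by
    apply IsAlgebraic.of_pow (n := 3) (by norm_num)
    have h1 : algebraMap K L y ^ 3 = -(1 + algebraMap K L t ^ 9 + algebraMap K L x ^ 3) := by
      have h2 := congrArg (algebraMap K L) h.rel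
      simp only [map_add, map_pow, map_one, map_zero] at h2
      linear_combination h2
    rw [h1]
    exact ((isAlgebraic_one.add (ht.pow 9)).add (hx.pow 3)).neg
  have hK : ∀ z : K, IsAlgebraic B (algebraMap K L z) := by
    intro z
    have hz : z ∈ IntermediateField.adjoin ℂ {t, x, y, a, b} := by
      rw [h.gen]; exact IntermediateField.mem_top
    induction hz using IntermediateField.adjoin_induction with
    | mem w hw =>
      simp only [Set.mem_insert_iff, Set.mem_singleton_iff] at hw
      rcases hw with rfl | rfl | rfl | rfl | rfl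
      · exact ht
      · exact hx
      · exact hy
      · exact ha
      · exact hb
    | algebraMap c =>
      rw [← IsScalarTower.algebraMap_apply ℂ K L]
      exact isAlgebraic_algebraMap (⟨algebraMap ℂ L c, B.algebraMap_mem c⟩ : B)
    | add u w _ _ hu hw => rw [map_add]; exact hu.add hw
    | inv u _ hu => rw [map_inv₀]; exact hu.inv
    | mul u w _ _ hu hw => rw [map_mul]; exact hu.mul hw
  have hL : Algebra.IsAlgebraic B L := by
    refine ⟨fun w => ?_⟩
    let f : K →+* Subalgebra.algebraicClosure B L :=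
      { toFun := fun z => ⟨algebraMap K L z, hK z⟩
        map_one' := by ext; simp
        map_mul' := fun _ _ => by ext; simp
        map_zero' := by ext; simp
        map_add' := fun _ _ => by ext; simp }
    let : Algebra K (Subalgebra.algebraicClosure B L) := f.toAlgebra
    have : IsScalarTower K (Subalgebra.algebraicClosure B L) L :=
      IsScalarTower.of_algebraMap_eq fun z => rfl
    have h1 : IsAlgebraic K w := Algebra.IsAlgebraic.isAlgebraic w
    have h2 : IsAlgebraic (Subalgebra.algebraicClosure B L) w :=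
      h1.extendScalars (f.injective)
    exact h2.restrictScalars B
  have htr : Algebra.trdeg ℂ K ≤ Algebra.trdeg ℂ L :=
    trdeg_le_of_injective (IsScalarTower.toAlgHom ℂ K L) (algebraMap K L).injective
  rw [h.trdeg] at htr
  have : FaithfulSMul ℂ L := inferInstance
  exact (Algebra.IsAlgebraic.isTranscendenceBasis_of_le_trdeg_of_finite ℂ v
    (by simpa using htr)).1

lemma isAlg_mem {L : Type} [Field L] [Algebra ℂ L] {v : Fin 4 → L} (i : Fin 4) :
    IsAlgebraic (Algebra.adjoin ℂ (Set.range v)) (v i) :=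
  isAlgebraic_algebraMap (⟨v i, Algebra.subset_adjoin ⟨i, rfl⟩⟩ : Algebra.adjoin ℂ (Set.range v))

theorem stmt_Sym : Stmt_Sym := by
  intro K _ _ t x y a b h
  have hgen : ∀ {S : Set K}, t ∈ IntermediateField.adjoin ℂ S → x ∈ IntermediateField.adjoin ℂ S →
      y ∈ IntermediateField.adjoin ℂ S → a ∈ IntermediateField.adjoin ℂ S →
      b ∈ IntermediateField.adjoin ℂ S → IntermediateField.adjoin ℂ S = ⊤ := by
    intro S h1 h2 h3 h4 h5
    rw [eq_top_iff, ← h.gen, IntermediateField.adjoin_le_iff]
    rintro z (rfl | rfl | rfl | rfl | rfl) <;> assumption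
  have hgood : AlgebraicIndependent ℂ ![t, x, a, b] := by
    apply datum_algInd (L := K) h
    · exact isAlg_mem (v := ![t, x, a, b]) 0
    · exact isAlg_mem (v := ![t, x, a, b]) 1
    · exact isAlg_mem (v := ![t, x, a, b]) 2
    · exact isAlg_mem (v := ![t, x, a, b]) 3
  have ht0 : t ≠ 0 := hgood.ne_zero 0
  have hx0 : x ≠ 0 := hgood.ne_zero 1
  have ha0 : a ≠ 0 := hgood.ne_zero 2
  have h1 : IsDatum t y x a b := by
    refine ⟨by linear_combination h.rel, h.trdeg, ?_⟩
    rw [← h.gen]
    congr 1
    ext z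
    simp only [Set.mem_insert_iff, Set.mem_singleton_iff]
    tauto
  refine ⟨h1, ⟨h.rel, h.trdeg, ?_⟩, ⟨h.rel, h.trdeg, ?_⟩, ⟨?_, h.trdeg, ?_⟩, hgood, ?_⟩
  · rw [← h.gen]
    congr 1
    ext z
    simp only [Set.mem_insert_iff, Set.mem_singleton_iff]
    tauto
  · have m : ∀ z ∈ ({t, x, y, a⁻¹, b / a} : Set K),
        z ∈ IntermediateField.adjoin ℂ ({t, x, y, a⁻¹, b / a} : Set K) :=
      fun z hz => IntermediateField.subset_adjoin _ _ hz
    have ma : a ∈ IntermediateField.adjoin ℂ ({t, x, y, a⁻¹, b / a} : Set K) := by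
      have := inv_mem (m a⁻¹ (by simp))
      rwa [inv_inv] at this
    refine hgen (m t (by simp)) (m x (by simp)) (m y (by simp)) ma ?_
    have := mul_mem (m (b / a) (by simp)) ma
    rwa [div_mul_cancel₀ _ ha0] at this
  · have : (x / t ^ 3) ^ 3 + (y / t ^ 3) ^ 3 + 1 + t⁻¹ ^ 9 = (x ^ 3 + y ^ 3 + 1 + t ^ 9) / t ^ 9 := by
      field_simp
      ring
    rw [this, h.rel, zero_div]
  · have m : ∀ z ∈ ({t⁻¹, x / t ^ 3, y / t ^ 3, a / t, b / t} : Set K),
        z ∈ IntermediateField.adjoin ℂ ({t⁻¹, x / t ^ 3, y / t ^ 3, a / t, b / t} : Set K) :=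
      fun z hz => IntermediateField.subset_adjoin _ _ hz
    have mt : t ∈ IntermediateField.adjoin ℂ
        ({t⁻¹, x / t ^ 3, y / t ^ 3, a / t, b / t} : Set K) := by
      have := inv_mem (m t⁻¹ (by simp))
      rwa [inv_inv] at this
    have ht3 : t ^ 3 ≠ 0 := pow_ne_zero 3 ht0
    refine hgen mt ?_ ?_ ?_ ?_
    · have := mul_mem (m (x / t ^ 3) (by simp)) (pow_mem mt 3)
      rwa [div_mul_cancel₀ _ ht3] at this
    · have := mul_mem (m (y / t ^ 3) (by simp)) (pow_mem mt 3)
      rwa [div_mul_cancel₀ _ ht3] at this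
    · have := mul_mem (m (a / t) (by simp)) mt
      rwa [div_mul_cancel₀ _ ht0] at this
    · have := mul_mem (m (b / t) (by simp)) mt
      rwa [div_mul_cancel₀ _ ht0] at this
  · apply datum_algInd (L := K) h1
    · exact isAlg_mem (v := ![t, y, a, b]) 0
    · exact isAlg_mem (v := ![t, y, a, b]) 1
    · exact isAlg_mem (v := ![t, y, a, b]) 2
    · exact isAlg_mem (v := ![t, y, a, b]) 3

end Alg

theorem stmt_Exists : Stmt_Exists := by
  -- the rational function field
  let P := MvPolynomial (Fin 4) ℂ
  let K0 := FractionRing P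
  let M := AlgebraicClosure K0
  let v : Fin 4 → K0 := fun i => algebraMap P K0 (X i)
  have hv : AlgebraicIndependent ℂ v := by
    have h1 : AlgebraicIndependent ℂ (X : Fin 4 → P) := MvPolynomial.algebraicIndependent_X (Fin 4) ℂ
    exact h1.map' (f := IsScalarTower.toAlgHom ℂ P K0) (IsFractionRing.injective P K0)
  let u : Fin 4 → M := fun i => algebraMap K0 M (v i)
  have hu : AlgebraicIndependent ℂ u :=
    hv.map' (f := IsScalarTower.toAlgHom ℂ K0 M) (algebraMap K0 M).injective
  obtain ⟨y, hy⟩ : ∃ y : M, y ^ 3 = -(u 1 ^ 3 + 1 + u 0 ^ 9) :=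
    IsAlgClosed.exists_pow_nat_eq _ (by norm_num)
  let K := IntermediateField.adjoin ℂ ({u 0, u 1, y, u 2, u 3} : Set M)
  have m : ∀ z ∈ ({u 0, u 1, y, u 2, u 3} : Set M), z ∈ K :=
    fun z hz => IntermediateField.subset_adjoin _ _ hz
  let t' : K := ⟨u 0, m _ (by simp)⟩
  let x' : K := ⟨u 1, m _ (by simp)⟩
  let y' : K := ⟨y, m _ (by simp)⟩
  let a' : K := ⟨u 2, m _ (by simp)⟩
  let b' : K := ⟨u 3, m _ (by simp)⟩
  have hrel : x' ^ 3 + y' ^ 3 + 1 + t' ^ 9 = 0 := by
    apply Subtype.ext
    change u 1 ^ 3 + y ^ 3 + 1 + u 0 ^ 9 = 0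
    rw [hy]; ring
  have hgen : IntermediateField.adjoin ℂ ({t', x', y', a', b'} : Set K) = ⊤ := by
    have h1 : IntermediateField.map K.val (IntermediateField.adjoin ℂ ({t', x', y', a', b'} : Set K))
        = IntermediateField.map K.val ⊤ := by
      rw [IntermediateField.adjoin_map]
      have : (K.val '' {t', x', y', a', b'}) = {u 0, u 1, y, u 2, u 3} := by
        simp [Set.image_insert_eq, t', x', y', a', b']
      rw [this]
      ext z
      simp [IntermediateField.mem_map]
      rfl
    exact IntermediateField.map_injective _ h1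
  let w : Fin 4 → K := ![t', x', a', b']
  have hw : AlgebraicIndependent ℂ w := by
    have h1 : AlgebraicIndependent ℂ (fun i => K.val (w i)) := by
      convert hu using 1
      ext i
      fin_cases i <;> rfl
    exact AlgebraicIndependent.of_comp K.val h1
  have halg : Algebra.IsAlgebraic (Algebra.adjoin ℂ (Set.range w)) K := by
    set B := Algebra.adjoin ℂ (Set.range w) with hB
    refine ⟨fun z => ?_⟩
    have hz : z ∈ IntermediateField.adjoin ℂ ({t', x', y', a', b'} : Set K) := by
      rw [hgen]; exact IntermediateField.mem_top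
    induction hz using IntermediateField.adjoin_induction with
    | mem s hs =>
      simp only [Set.mem_insert_iff, Set.mem_singleton_iff] at hs
      rcases hs with rfl | rfl | rfl | rfl | rfl
      · exact isAlg_mem (v := w) 0
      · exact isAlg_mem (v := w) 1
      · apply IsAlgebraic.of_pow (n := 3) (by norm_num)
        have h1 : y' ^ 3 = -(1 + t' ^ 9 + x' ^ 3) := by linear_combination hrel
        rw [h1]
        exact ((isAlgebraic_one.add ((isAlg_mem (v := w) 0).pow 9)).add
          ((isAlg_mem (v := w) 1).pow 3)).neg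
      · exact isAlg_mem (v := w) 2
      · exact isAlg_mem (v := w) 3
    | algebraMap c => exact isAlgebraic_algebraMap (⟨algebraMap ℂ K c, B.algebraMap_mem c⟩ : B)
    | add u w _ _ hu hw => exact hu.add hw
    | inv u _ hu => exact hu.inv
    | mul u w _ _ hu hw => exact hu.mul hw
  have htb : IsTranscendenceBasis ℂ w := hw.isTranscendenceBasis_iff_isAlgebraic.2 halg
  have htr : Algebra.trdeg ℂ K = 4 := by
    rw [← htb.cardinalMk_eq_trdeg]; simp
  exact ⟨K, inferInstance, inferInstance, t', x', y', a', b', hrel, htr, hgen⟩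

end Pool.Agent.MPad0563
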