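import Pool.Agent.Work.MP_ad0563_ag_helper47.N1
import Pool.Agent.Work.MP_ad0563_ag_helper47.Sym

/-!
# MP_ad0563_ag, block N2: normality of the explicit algebras
-/

open MvPolynomial

namespace Pool.Agent.MPad0563

namespace NormN

/-! ### squarefreeness -/

lemma dvd_pderiv {n : ℕ} {G π : MvPolynomial (Fin n) ℂ} (h : π * π ∣ G) (i : Fin n) :
    π ∣ pderiv i G := by
  obtain ⟨c, rfl⟩ := h
  rw [pderiv_mul, pderiv_mul]
  exact ⟨2 * pderiv i π * c + π * pderiv i c, by ring⟩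

lemma isUnit_neg_one : IsUnit (-1 : MvPolynomial (Fin 4) ℂ) := isUnit_one.neg

lemma dvd_of_dvd_C_mul {π f : MvPolynomial (Fin 4) ℂ} {c : ℂ} (hc : c ≠ 0) (h : π ∣ C c * f) :
    π ∣ f := by
  have h1 : f = C c⁻¹ * (C c * f) := by
    rw [← mul_assoc, ← C_mul, inv_mul_cancel₀ hc, C_1, one_mul]
  rw [h1]
  exact dvd_mul_of_dvd_right h _

/-- the polynomial of the first chart -/
noncomputable def G1 : MvPolynomial (Fin 4) ℂ := -(1 + X 1 ^ 3 + X 0 ^ 9)

/-- the polynomial of the second chart -/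
noncomputable def G2 : MvPolynomial (Fin 4) ℂ := -(1 + X 1 ^ 3 * (1 + X 0 ^ 9))

/-- the polynomial of the third chart -/
noncomputable def G3 : MvPolynomial (Fin 4) ℂ := -(1 + (X 0 ^ 9 + X 2 ^ 9) * X 1 ^ 3)

/-- the polynomial of the singular charts -/
noncomputable def G4 : MvPolynomial (Fin 4) ℂ := -(1 + X 0 ^ 9 + X 1 ^ 9)

lemma squarefree_G1 : Squarefree G1 := by
  intro π hπ
  have h0 : π ∣ G1 := (Dvd.intro _ rfl).trans hπ
  have h1 := dvd_pderiv hπ 1
  have h2 := dvd_pderiv hπ 0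
  have e1 : pderiv 1 G1 = C (-3) * X 1 ^ 2 := by
    unfold G1
    simp [pderiv_X]
    rw [show (3 : MvPolynomial (Fin 4) ℂ) = C 3 from (map_ofNat C 3).symm]
  have e2 : pderiv 0 G1 = C (-9) * X 0 ^ 8 := by
    unfold G1
    simp [pderiv_X]
    rw [show (9 : MvPolynomial (Fin 4) ℂ) = C 9 from (map_ofNat C 9).symm]
  rw [e1] at h1
  rw [e2] at h2
  have h3 := dvd_of_dvd_C_mul (by norm_num) h1
  have h4 := dvd_of_dvd_C_mul (by norm_num) h2
  have h5 : π ∣ -1 := by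
    have : (-1 : MvPolynomial (Fin 4) ℂ) = G1 + X 1 ^ 2 * X 1 + X 0 ^ 8 * X 0 := by
      unfold G1; ring
    rw [this]
    exact dvd_add (dvd_add h0 (dvd_mul_of_dvd_left h3 _)) (dvd_mul_of_dvd_left h4 _)
  exact isUnit_of_dvd_unit h5 isUnit_neg_one

lemma squarefree_G2 : Squarefree G2 := by
  intro π hπ
  have h0 : π ∣ G2 := (Dvd.intro _ rfl).trans hπ
  have h1 := dvd_pderiv hπ 1
  have e1 : pderiv 1 G2 = C (-3) * (X 1 ^ 2 * (1 + X 0 ^ 9)) := by
    unfold G2
    simp [pderiv_X]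
    rw [show (3 : MvPolynomial (Fin 4) ℂ) = C 3 from (map_ofNat C 3).symm]
    ring
  rw [e1] at h1
  have h3 := dvd_of_dvd_C_mul (by norm_num) h1
  have h5 : π ∣ -1 := by
    have : (-1 : MvPolynomial (Fin 4) ℂ) = G2 + (X 1 ^ 2 * (1 + X 0 ^ 9)) * X 1 := by
      unfold G2; ring
    rw [this]
    exact dvd_add h0 (dvd_mul_of_dvd_left h3 _)
  exact isUnit_of_dvd_unit h5 isUnit_neg_one

lemma squarefree_G3 : Squarefree G3 := by
  intro π hπ
  have h0 : π ∣ G3 := (Dvd.intro _ rfl).trans hπ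
  have h1 := dvd_pderiv hπ 1
  have e1 : pderiv 1 G3 = C (-3) * ((X 0 ^ 9 + X 2 ^ 9) * X 1 ^ 2) := by
    unfold G3
    simp [pderiv_X]
    rw [show (3 : MvPolynomial (Fin 4) ℂ) = C 3 from (map_ofNat C 3).symm]
    ring
  rw [e1] at h1
  have h3 := dvd_of_dvd_C_mul (by norm_num) h1
  have h5 : π ∣ -1 := by
    have : (-1 : MvPolynomial (Fin 4) ℂ) = G3 + ((X 0 ^ 9 + X 2 ^ 9) * X 1 ^ 2) * X 1 := by
      unfold G3; ring
    rw [this]
    exact dvd_add h0 (dvd_mul_of_dvd_left h3 _)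
  exact isUnit_of_dvd_unit h5 isUnit_neg_one

lemma squarefree_G4 : Squarefree G4 := by
  intro π hπ
  have h0 : π ∣ G4 := (Dvd.intro _ rfl).trans hπ
  have h1 := dvd_pderiv hπ 1
  have h2 := dvd_pderiv hπ 0
  have e1 : pderiv 1 G4 = C (-9) * X 1 ^ 8 := by
    unfold G4
    simp [pderiv_X]
    rw [show (9 : MvPolynomial (Fin 4) ℂ) = C 9 from (map_ofNat C 9).symm]
  have e2 : pderiv 0 G4 = C (-9) * X 0 ^ 8 := by
    unfold G4
    simp [pderiv_X]
    rw [show (9 : MvPolynomial (Fin 4) ℂ) = C 9 from (map_ofNat C 9).symm]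
  rw [e1] at h1
  rw [e2] at h2
  have h3 := dvd_of_dvd_C_mul (by norm_num) h1
  have h4 := dvd_of_dvd_C_mul (by norm_num) h2
  have h5 : π ∣ -1 := by
    have : (-1 : MvPolynomial (Fin 4) ℂ) = G4 + X 1 ^ 8 * X 1 + X 0 ^ 8 * X 0 := by
      unfold G4; ring
    rw [this]
    exact dvd_add (dvd_add h0 (dvd_mul_of_dvd_left h3 _)) (dvd_mul_of_dvd_left h4 _)
  exact isUnit_of_dvd_unit h5 isUnit_neg_one

/-- a polynomial with two different values is not a unit -/
lemma not_isUnit_of_eval {G : MvPolynomial (Fin 4) ℂ} {v : Fin 4 → ℂ} (h : eval v G = 0) :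
    ¬ IsUnit G := by
  intro hu
  have := hu.map (eval v)
  rw [h] at this
  exact not_isUnit_zero this

lemma not_isUnit_G1 : ¬ IsUnit G1 := by
  apply not_isUnit_of_eval (v := ![0, -1, 0, 0])
  unfold G1; simp; norm_num

lemma not_isUnit_G2 : ¬ IsUnit G2 := by
  apply not_isUnit_of_eval (v := ![0, -1, 0, 0])
  unfold G2; simp; norm_num

lemma not_isUnit_G3 : ¬ IsUnit G3 := by
  apply not_isUnit_of_eval (v := ![-1, 1, 0, 0])
  unfold G3; simp; norm_num

lemma not_isUnit_G4 : ¬ IsUnit G4 := by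
  apply not_isUnit_of_eval (v := ![-1, 0, 0, 0])
  unfold G4; simp; norm_num

/-! ### transfer -/

/-- the monomials of weight divisible by three -/
def SS {L : Type} [Field L] (Z : Fin 4 → L) (w : Fin 4 → ℕ) : Set L :=
  {z | ∃ e : Fin 4 → ℕ, 3 ∣ ∑ i, w i * e i ∧ z = ∏ i, Z i ^ e i}

lemma mem_SS {L : Type} [Field L] {Z : Fin 4 → L} {w : Fin 4 → ℕ} (e : Fin 4 → ℕ) {z : L}
    (h1 : 3 ∣ ∑ i, w i * e i) (h2 : z = ∏ i, Z i ^ e i) : z ∈ SS Z w := ⟨e, h1, h2⟩

lemma icl_of_N1 {K L : Type} [Field K] [Algebra ℂ K] [Field L] [Algebra ℂ L] [Algebra K L]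
    [IsScalarTower ℂ K L] (A : Subalgebra ℂ K) (Z : Fin 4 → L) (w : Fin 4 → ℕ) (η : L)
    (G : MvPolynomial (Fin 4) ℂ) (hZ : AlgebraicIndependent ℂ Z) (hG : Squarefree G)
    (hGu : ¬ IsUnit G) (hGw : ∀ e ∈ G.support, 3 ∣ ∑ i, w i * e i) (hη : η ^ 3 = aeval Z G)
    (h1 : A.map (IsScalarTower.toAlgHom ℂ K L) = Algebra.adjoin ℂ (SS Z w ∪ {η}))
    (h2 : ∀ z : K, algebraMap K L z ∈ IntermediateField.adjoin ℂ (SS Z w ∪ {η})) :
    IsIntegrallyClosedIn A K := by
  refine isIntegrallyClosedIn_iff.2 ⟨Subtype.val_injective, fun {u} hu => ?_⟩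
  have h3 : IsIntegral (Algebra.adjoin ℂ (SS Z w ∪ {η})) (algebraMap K L u) := by
    let φ : A →+* Algebra.adjoin ℂ (SS Z w ∪ {η}) :=
      { toFun := fun a => ⟨algebraMap K L a, by rw [← h1]; exact ⟨a, a.2, rfl⟩⟩
        map_one' := by ext; simp
        map_mul' := fun _ _ => by ext; simp
        map_zero' := by ext; simp
        map_add' := fun _ _ => by ext; simp }
    exact hu.map_of_comp_eq φ (algebraMap K L) (by ext a; rfl)
  have h4 := stmt_N1 L 4 Z w η G hZ hG hGu hGw hη (SS Z w) rfl _ (h2 u) h3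
  rw [← h1] at h4
  obtain ⟨a, ha, hau⟩ := h4
  have : a = u := (algebraMap K L).injective hau
  exact ⟨⟨a, ha⟩, this⟩

lemma field_gen {K L : Type} [Field K] [Algebra ℂ K] [Field L] [Algebra ℂ L] [Algebra K L]
    [IsScalarTower ℂ K L] {t x y a b : K} (h : IsDatum t x y a b) (T : Set L)
    (ht : algebraMap K L t ∈ IntermediateField.adjoin ℂ T)
    (hx : algebraMap K L x ∈ IntermediateField.adjoin ℂ T)
    (hy : algebraMap K L y ∈ IntermediateField.adjoin ℂ T)
    (ha : algebraMap K L a ∈ IntermediateField.adjoin ℂ T)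
    (hb : algebraMap K L b ∈ IntermediateField.adjoin ℂ T) (z : K) :
    algebraMap K L z ∈ IntermediateField.adjoin ℂ T := by
  have hz : z ∈ IntermediateField.adjoin ℂ {t, x, y, a, b} := by
    rw [h.gen]; exact IntermediateField.mem_top
  induction hz using IntermediateField.adjoin_induction with
  | mem w hw =>
    simp only [Set.mem_insert_iff, Set.mem_singleton_iff] at hw
    rcases hw with rfl | rfl | rfl | rfl | rfl <;> assumption
  | algebraMap c =>
    rw [← IsScalarTower.algebraMap_apply ℂ K L]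
    exact IntermediateField.algebraMap_mem _ _
  | add u w _ _ hu hw => rw [map_add]; exact add_mem hu hw
  | inv u _ hu => rw [map_inv₀]; exact inv_mem hu
  | mul u w _ _ hu hw => rw [map_mul]; exact mul_mem hu hw

lemma prod4 {L : Type} [Field L] (Z : Fin 4 → L) (e : Fin 4 → ℕ) :
    ∏ i, Z i ^ e i = Z 0 ^ e 0 * Z 1 ^ e 1 * Z 2 ^ e 2 * Z 3 ^ e 3 := by
  rw [Fin.prod_univ_four]

/-- the case of weight zero -/
lemma adjoin_SS_zero {L : Type} [Field L] [Algebra ℂ L] (Z : Fin 4 → L) (η : L) :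
    Algebra.adjoin ℂ (SS Z (fun _ => 0) ∪ {η}) = Algebra.adjoin ℂ {Z 0, Z 1, Z 2, Z 3, η} := by
  apply le_antisymm
  · apply Algebra.adjoin_le
    rintro z (⟨e, -, rfl⟩ | rfl)
    · rw [prod4]
      have m : ∀ z ∈ ({Z 0, Z 1, Z 2, Z 3, η} : Set L),
          z ∈ Algebra.adjoin ℂ ({Z 0, Z 1, Z 2, Z 3, η} : Set L) :=
        fun z hz => Algebra.subset_adjoin hz
      exact mul_mem (mul_mem (mul_mem (pow_mem (m _ (by simp)) _) (pow_mem (m _ (by simp)) _))
        (pow_mem (m _ (by simp)) _)) (pow_mem (m _ (by simp)) _)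
    · exact Algebra.subset_adjoin (by simp)
  · apply Algebra.adjoin_mono
    have key : ∀ i : Fin 4, Z i ∈ SS Z (fun _ => 0) := by
      intro i
      refine mem_SS (Pi.single i 1) (by simp) ?_
      rw [Finset.prod_eq_single i]
      · simp
      · intro j _ hj
        simp [Pi.single_eq_of_ne hj]
      · simp
    intro z hz
    simp only [Set.mem_insert_iff, Set.mem_singleton_iff] at hz
    rcases hz with rfl | rfl | rfl | rfl | rfl
    · exact Or.inl (key 0)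
    · exact Or.inl (key 1)
    · exact Or.inl (key 2)
    · exact Or.inl (key 3)
    · exact Or.inr rfl

lemma icl_zero {K : Type} [Field K] [Algebra ℂ K] {t x y a b : K} (h : IsDatum t x y a b)
    (Z : Fin 4 → K) (η : K) (G : MvPolynomial (Fin 4) ℂ) (hG : Squarefree G) (hGu : ¬ IsUnit G)
    (hη : η ^ 3 = aeval Z G)
    (ht : IsAlgebraic (Algebra.adjoin ℂ (Set.range Z)) t)
    (hx : IsAlgebraic (Algebra.adjoin ℂ (Set.range Z)) x)
    (ha : IsAlgebraic (Algebra.adjoin ℂ (Set.range Z)) a)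
    (hb : IsAlgebraic (Algebra.adjoin ℂ (Set.range Z)) b)
    (ht' : t ∈ IntermediateField.adjoin ℂ {Z 0, Z 1, Z 2, Z 3, η})
    (hx' : x ∈ IntermediateField.adjoin ℂ {Z 0, Z 1, Z 2, Z 3, η})
    (hy' : y ∈ IntermediateField.adjoin ℂ {Z 0, Z 1, Z 2, Z 3, η})
    (ha' : a ∈ IntermediateField.adjoin ℂ {Z 0, Z 1, Z 2, Z 3, η})
    (hb' : b ∈ IntermediateField.adjoin ℂ {Z 0, Z 1, Z 2, Z 3, η}) :
    IsIntegrallyClosedIn (Algebra.adjoin ℂ {Z 0, Z 1, Z 2, Z 3, η}) K := by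
  have hle : IntermediateField.adjoin ℂ {Z 0, Z 1, Z 2, Z 3, η} ≤
      IntermediateField.adjoin ℂ (SS Z (fun _ => 0) ∪ {η}) := by
    rw [IntermediateField.adjoin_le_iff]
    intro z hz
    have h1 : z ∈ Algebra.adjoin ℂ {Z 0, Z 1, Z 2, Z 3, η} := Algebra.subset_adjoin hz
    rw [← adjoin_SS_zero] at h1
    exact IntermediateField.algebra_adjoin_le_adjoin _ _ h1
  apply icl_of_N1 (L := K) _ Z (fun _ => 0) η G (datum_algInd (L := K) h Z ht hx ha hb) hG hGu
    (by simp) hη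
  · rw [adjoin_SS_zero]
    have : IsScalarTower.toAlgHom ℂ K K = AlgHom.id ℂ K := by ext; rfl
    rw [this, Subalgebra.map_id]
  · intro z
    exact field_gen (L := K) h _ (hle ht') (hle hx') (hle hy') (hle ha') (hle hb') z

section Charts

variable {K : Type} [Field K] [Algebra ℂ K] {t x y a b : K}

lemma ne_zero (h : IsDatum t x y a b) : t ≠ 0 ∧ x ≠ 0 ∧ y ≠ 0 ∧ a ≠ 0 ∧ b ≠ 0 := by
  obtain ⟨-, -, -, -, h1, h2⟩ := stmt_Sym K t x y a b h
  exact ⟨h1.ne_zero 0, h1.ne_zero 1, h2.ne_zero 1, h1.ne_zero 2, h1.ne_zero 3⟩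

theorem icl_T1 (h : IsDatum t x y a b) : IsIntegrallyClosedIn (algT1 t x y a b) K := by
  have e : algT1 t x y a b = Algebra.adjoin ℂ {(![t, x, a, b] : Fin 4 → K) 0,
      (![t, x, a, b] : Fin 4 → K) 1, (![t, x, a, b] : Fin 4 → K) 2,
      (![t, x, a, b] : Fin 4 → K) 3, y} := by
    unfold algT1
    congr 1
    ext z
    simp
    tauto
  rw [e]
  have m : ∀ z ∈ ({t, x, a, b, y} : Set K), z ∈ IntermediateField.adjoin ℂ
      {(![t, x, a, b] : Fin 4 → K) 0,
      (![t, x, a, b] : Fin 4 → K) 1, (![t, x, a, b] : Fin 4 → K) 2,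
      (![t, x, a, b] : Fin 4 → K) 3, y} := by
    intro z hz
    apply IntermediateField.subset_adjoin
    simpa using hz
  apply icl_zero h _ y G1 squarefree_G1 not_isUnit_G1
  · unfold G1
    simp
    linear_combination h.rel
  · exact isAlg_mem (v := ![t, x, a, b]) 0
  · exact isAlg_mem (v := ![t, x, a, b]) 1
  · exact isAlg_mem (v := ![t, x, a, b]) 2
  · exact isAlg_mem (v := ![t, x, a, b]) 3
  · exact m _ (by simp)
  · exact m _ (by simp)
  · exact m _ (by simp)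
  · exact m _ (by simp)
  · exact m _ (by simp)

theorem icl_T2 (h : IsDatum t x y a b) : IsIntegrallyClosedIn (algT2 t x y a b) K := by
  obtain ⟨ht0, hx0, hy0, ha0, hb0⟩ := ne_zero h
  have e : algT2 t x y a b = Algebra.adjoin ℂ {(![t, x⁻¹, a, b] : Fin 4 → K) 0,
      (![t, x⁻¹, a, b] : Fin 4 → K) 1, (![t, x⁻¹, a, b] : Fin 4 → K) 2,
      (![t, x⁻¹, a, b] : Fin 4 → K) 3, y / x} := by
    unfold algT2
    congr 1
    ext z
    simp
    tauto
  rw [e]
  have m : ∀ z ∈ ({t, x⁻¹, a, b, y / x} : Set K), z ∈ IntermediateField.adjoin ℂ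
      {(![t, x⁻¹, a, b] : Fin 4 → K) 0,
      (![t, x⁻¹, a, b] : Fin 4 → K) 1, (![t, x⁻¹, a, b] : Fin 4 → K) 2,
      (![t, x⁻¹, a, b] : Fin 4 → K) 3, y / x} := by
    intro z hz
    apply IntermediateField.subset_adjoin
    simpa using hz
  have mx := inv_mem (m x⁻¹ (by simp))
  rw [inv_inv] at mx
  apply icl_zero h _ (y / x) G2 squarefree_G2 not_isUnit_G2
  · unfold G2
    simp
    field_simp
    linear_combination h.rel
  · exact isAlg_mem (v := ![t, x⁻¹, a, b]) 0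
  · have := (isAlg_mem (v := ![t, x⁻¹, a, b]) 1).inv
    simpa using this
  · exact isAlg_mem (v := ![t, x⁻¹, a, b]) 2
  · exact isAlg_mem (v := ![t, x⁻¹, a, b]) 3
  · exact m _ (by simp)
  · exact mx
  · have := mul_mem (m (y / x) (by simp)) mx
    rwa [div_mul_cancel₀ _ hx0] at this
  · exact m _ (by simp)
  · exact m _ (by simp)

end Charts

/-- inverting an element preserves normality -/
lemma icl_loc {K : Type} [Field K] [Algebra ℂ K] (A' A : Subalgebra ℂ K) (r : K) (hr : r ∈ A')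
    (hr0 : r ≠ 0) (hrinv : r⁻¹ ∈ A) (hle : A' ≤ A) (hsurj : ∀ z ∈ A, ∃ m : ℕ, z * r ^ m ∈ A')
    (hA' : IsIntegrallyClosedIn A' K) : IsIntegrallyClosedIn A K := by
  refine isIntegrallyClosedIn_iff.2 ⟨Subtype.val_injective, fun {u} hu => ?_⟩
  let : Algebra A' A := (Subalgebra.inclusion hle).toRingHom.toAlgebra
  have : IsScalarTower A' A K := IsScalarTower.of_algebraMap_eq fun z => rfl
  let M : Submonoid A' := Submonoid.powers ⟨r, hr⟩
  have hloc : IsLocalization M A := by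
    refine ⟨⟨?_, ?_, ?_⟩⟩
    · rintro ⟨_, n, rfl⟩
      refine IsUnit.of_mul_eq_one (⟨r⁻¹ ^ n, pow_mem hrinv n⟩ : A) ?_
      apply Subtype.ext
      change (r ^ n) * r⁻¹ ^ n = 1
      rw [← mul_pow, mul_inv_cancel₀ hr0, one_pow]
    · rintro ⟨z, hz⟩
      obtain ⟨m, hm⟩ := hsurj z hz
      refine ⟨⟨⟨z * r ^ m, hm⟩, ⟨⟨r, hr⟩ ^ m, m, rfl⟩⟩, ?_⟩
      apply Subtype.ext
      rfl
    · intro z1 z2 h12
      refine ⟨1, ?_⟩
      have : z1 = z2 := by
        apply Subtype.ext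
        exact congrArg (fun w : A => (w : K)) h12
      rw [this]
  obtain ⟨⟨_, n, rfl⟩, hm⟩ := IsIntegral.exists_multiple_integral_of_isLocalization M u hu
  obtain ⟨z, hz⟩ := (isIntegrallyClosedIn_iff.1 hA').2 hm
  have hz' : (z : K) = r ^ n * u := by
    change algebraMap A' K z = _
    rw [hz]
    rfl
  have hu' : u = z * r⁻¹ ^ n := by
    rw [hz', mul_comm (r ^ n) u, mul_assoc, ← mul_pow, mul_inv_cancel₀ hr0, one_pow, mul_one]
  refine ⟨⟨u, ?_⟩, rfl⟩
  rw [hu']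
  exact mul_mem (hle z.2) (pow_mem hrinv n)

section Charts

variable {K : Type} [Field K] [Algebra ℂ K] {t x y a b : K}

theorem icl_T3 (h : IsDatum t x y a b) : IsIntegrallyClosedIn (algT3 t x y a b) K := by
  obtain ⟨ht0, hx0, hy0, ha0, hb0⟩ := ne_zero h
  have m : ∀ z ∈ ({t / a, a ^ 3 / x, a⁻¹, b / a, y / x} : Set K), z ∈ IntermediateField.adjoin ℂ
      {(![t / a, a ^ 3 / x, a⁻¹, b / a] : Fin 4 → K) 0,
      (![t / a, a ^ 3 / x, a⁻¹, b / a] : Fin 4 → K) 1,
      (![t / a, a ^ 3 / x, a⁻¹, b / a] : Fin 4 → K) 2,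
      (![t / a, a ^ 3 / x, a⁻¹, b / a] : Fin 4 → K) 3, y / x} := by
    intro z hz
    apply IntermediateField.subset_adjoin
    simpa using hz
  have ma := inv_mem (m a⁻¹ (by simp))
  rw [inv_inv] at ma
  have mx : x ∈ IntermediateField.adjoin ℂ
      {(![t / a, a ^ 3 / x, a⁻¹, b / a] : Fin 4 → K) 0,
      (![t / a, a ^ 3 / x, a⁻¹, b / a] : Fin 4 → K) 1,
      (![t / a, a ^ 3 / x, a⁻¹, b / a] : Fin 4 → K) 2,
      (![t / a, a ^ 3 / x, a⁻¹, b / a] : Fin 4 → K) 3, y / x} := by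
    have := div_mem (pow_mem ma 3) (m (a ^ 3 / x) (by simp))
    rwa [div_div_cancel₀ (pow_ne_zero 3 ha0)] at this
  have hA' := icl_zero h ![t / a, a ^ 3 / x, a⁻¹, b / a] (y / x) G3 squarefree_G3 not_isUnit_G3
    (by
      unfold G3
      simp
      field_simp
      linear_combination h.rel)
    (by
      have h2 := (isAlg_mem (v := ![t / a, a ^ 3 / x, a⁻¹, b / a]) 2).inv
      have h0 := isAlg_mem (v := ![t / a, a ^ 3 / x, a⁻¹, b / a]) 0
      have := h0.mul h2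
      simpa [div_mul_cancel₀ _ ha0] using this)
    (by
      have h2 := (isAlg_mem (v := ![t / a, a ^ 3 / x, a⁻¹, b / a]) 2).inv
      have h1 := (isAlg_mem (v := ![t / a, a ^ 3 / x, a⁻¹, b / a]) 1).inv
      have := (h2.pow 3).mul h1
      have e : (a ^ 3) * (x / a ^ 3) = x := by field_simp
      simpa [e] using this)
    (by
      have h2 := (isAlg_mem (v := ![t / a, a ^ 3 / x, a⁻¹, b / a]) 2).inv
      simpa using h2)
    (by
      have h2 := (isAlg_mem (v := ![t / a, a ^ 3 / x, a⁻¹, b / a]) 2).inv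
      have h0 := isAlg_mem (v := ![t / a, a ^ 3 / x, a⁻¹, b / a]) 3
      have := h0.mul h2
      simpa [div_mul_cancel₀ _ ha0] using this)
    (by
      have := mul_mem (m (t / a) (by simp)) ma
      rwa [div_mul_cancel₀ _ ha0] at this)
    mx
    (by
      have := mul_mem (m (y / x) (by simp)) mx
      rwa [div_mul_cancel₀ _ hx0] at this)
    ma
    (by
      have := mul_mem (m (b / a) (by simp)) ma
      rwa [div_mul_cancel₀ _ ha0] at this)
  set A' := Algebra.adjoin ℂ {(![t / a, a ^ 3 / x, a⁻¹, b / a] : Fin 4 → K) 0,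
      (![t / a, a ^ 3 / x, a⁻¹, b / a] : Fin 4 → K) 1,
      (![t / a, a ^ 3 / x, a⁻¹, b / a] : Fin 4 → K) 2,
      (![t / a, a ^ 3 / x, a⁻¹, b / a] : Fin 4 → K) 3, y / x} with hA'def
  have n : ∀ z ∈ ({t / a, a ^ 3 / x, a⁻¹, b / a, y / x} : Set K), z ∈ A' := by
    intro z hz
    apply Algebra.subset_adjoin
    simpa using hz
  have hr0 : a ^ 3 / x ≠ 0 := div_ne_zero (pow_ne_zero 3 ha0) hx0
  have hr : a ^ 3 / x ∈ A' := n _ (by simp)
  refine icl_loc A' _ (a ^ 3 / x) hr hr0 ?_ ?_ ?_ hA'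
  · rw [inv_div]
    exact Algebra.subset_adjoin (by simp)
  · apply Algebra.adjoin_mono
    intro z hz
    simp only [Matrix.cons_val_zero, Matrix.cons_val_one, Matrix.cons_val, Set.mem_insert_iff,
      Set.mem_singleton_iff] at hz ⊢
    tauto
  · intro z hz
    unfold algT3 at hz
    induction hz using Algebra.adjoin_induction with
    | mem w hw =>
      simp only [Set.mem_insert_iff, Set.mem_singleton_iff] at hw
      rcases hw with rfl | rfl | rfl | rfl | rfl | rfl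
      · exact ⟨0, by rw [pow_zero, mul_one]; exact n _ (by simp)⟩
      · exact ⟨0, by rw [pow_zero, mul_one]; exact n _ (by simp)⟩
      · exact ⟨0, by rw [pow_zero, mul_one]; exact n _ (by simp)⟩
      · exact ⟨0, by rw [pow_zero, mul_one]; exact n _ (by simp)⟩
      · refine ⟨1, ?_⟩
        have : x / a ^ 3 * (a ^ 3 / x) ^ 1 = 1 := by field_simp
        rw [this]; exact A'.one_mem
      · exact ⟨0, by rw [pow_zero, mul_one]; exact n _ (by simp)⟩
    | algebraMap c => exact ⟨0, by rw [pow_zero, mul_one]; exact A'.algebraMap_mem c⟩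
    | add u v _ _ hu hv =>
      obtain ⟨k, hk⟩ := hu
      obtain ⟨l, hl⟩ := hv
      refine ⟨k + l, ?_⟩
      have e : (u + v) * (a ^ 3 / x) ^ (k + l) = (u * (a ^ 3 / x) ^ k) * (a ^ 3 / x) ^ l +
        (v * (a ^ 3 / x) ^ l) * (a ^ 3 / x) ^ k := by rw [pow_add]; ring
      rw [e]
      exact add_mem (mul_mem hk (pow_mem hr l)) (mul_mem hl (pow_mem hr k))
    | mul u v _ _ hu hv =>
      obtain ⟨k, hk⟩ := hu
      obtain ⟨l, hl⟩ := hv
      refine ⟨k + l, ?_⟩
      have e : (u * v) * (a ^ 3 / x) ^ (k + l) = (u * (a ^ 3 / x) ^ k) *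
        (v * (a ^ 3 / x) ^ l) := by rw [pow_add]; ring
      rw [e]
      exact mul_mem hk hl

end Charts

end NormN

end Pool.Agent.MPad0563
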